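import Pool.Agent.Helper78.GL.Spec

set_option autoImplicit false

open MeasureTheory Metric Set Filter Topology

namespace Helper78.GL

open Pool.GL

theorem dX_congr {f g : ℂ → ℝ} {z : ℂ} (h : f =ᶠ[𝓝 z] g) : dX f =ᶠ[𝓝 z] dX g := by
  filter_upwards [h.eventuallyEq_nhds] with w hw
  unfold dX
  rw [hw.fderiv_eq]

theorem dY_congr {f g : ℂ → ℝ} {z : ℂ} (h : f =ᶠ[𝓝 z] g) : dY f =ᶠ[𝓝 z] dY g := by
  filter_upwards [h.eventuallyEq_nhds] with w hw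
  unfold dY
  rw [hw.fderiv_eq]

theorem lap_congr {f g : ℂ → ℝ} {z : ℂ} (h : f =ᶠ[𝓝 z] g) : lap f z = lap g z := by
  unfold lap
  rw [(dX_congr (dX_congr h)).eq_of_nhds, (dY_congr (dY_congr h)).eq_of_nhds]

theorem fina_thm (hA : S_AREA) (hP : S_PROF) (hT : S_TREE) (hG : S_GREEN) (hS : S_SUBM)
    (hC : S_CMP) : S_TREE_GOOD := by
  intro M T t
  have hne : Nonempty M := ⟨t.y [] false 0⟩
  obtain ⟨ms, μ, hμ⟩ := hA M T hne
  obtain ⟨P⟩ := hP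
  have hb := hT P M T μ hμ t
  obtain ⟨u, hB, hu2, hlap, x, y, hxy⟩ := hG P M T μ _ _ hμ hb
  refine ⟨u, hB, ⟨x, y, hxy⟩, ?_⟩
  intro c hc
  have key : ∀ t₀ ∈ ball (0 : ℂ) 1, ContDiffAt ℝ 2 (fun t => u (c t)) t₀ ∧
      0 ≤ lap (fun t => u (c t)) t₀ := by
    intro t₀ ht₀
    obtain ⟨ε, hε, τ, hτd, hτ⟩ := hc t₀ ht₀
    have h0 : τ t₀ = 0 := by
      obtain ⟨h1, h2⟩ := hτ t₀ (mem_ball_self hε)
      refine T.Phi_inj (c t₀) _ _ h1 (by simpa using T.rho_pos (c t₀)) ?_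
      rw [← h2, T.Phi_zero]
    have hcm := hC (fun z => u (T.Phi (c t₀) z)) τ (ball t₀ ε) t₀ isOpen_ball (mem_ball_self hε) hτd
      ⟨ball 0 (T.rho (c t₀)), isOpen_ball, by rw [h0]; exact mem_ball_self (T.rho_pos _),
        hu2 (c t₀)⟩
    have hev : (fun t => u (c t)) =ᶠ[𝓝 t₀] (fun t => (fun z => u (T.Phi (c t₀) z)) (τ t)) := by
      filter_upwards [isOpen_ball.mem_nhds (mem_ball_self hε)] with s hs
      show u (c s) = u (T.Phi (c t₀) (τ s))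
      rw [(hτ s hs).2]
    refine ⟨hcm.1.congr_of_eventuallyEq hev, ?_⟩
    rw [lap_congr hev, hcm.2, h0]
    exact mul_nonneg (by positivity) (hlap (c t₀))
  have hcd : ContDiffOn ℝ 2 (fun t => u (c t)) (ball 0 1) :=
    fun s hs => (key s hs).1.contDiffWithinAt
  refine ⟨hcd.continuousOn.upperSemicontinuousOn, ?_⟩
  intro z r hr hzr
  exact hS (fun t => u (c t)) hcd (fun s hs => (key s hs).2) z r hr hzr

end Helper78.GL
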