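import Pool.Agent.Helper78.GL.Spec

set_option autoImplicit false

open MeasureTheory Metric Set Filter Topology

namespace Helper78.GL

/-! Basic facts about `avg`. -/

theorem nle (a b : ℂ) : ‖a‖ ≤ ‖a - b‖ + ‖b‖ := by
  have := norm_add_le (a - b) b
  rwa [sub_add_cancel] at this

theorem mem_ball_avg {z w : ℂ} {s : ℝ} (hs : 0 ≤ s) (hw : ‖w‖ ≤ 1) :
    z + (s : ℂ) * w ∈ closedBall z s := by
  rw [mem_closedBall, dist_eq_norm]
  have : z + (s : ℂ) * w - z = (s : ℂ) * w := by ring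
  rw [this, norm_mul, Complex.norm_real, Real.norm_eq_abs, abs_of_nonneg hs]
  nlinarith [norm_nonneg w]

theorem χ_cont (P : Profile) : Continuous P.χ := P.χ_smooth.continuous

theorem int_avg (P : Profile) {f : ℂ → ℝ} {z : ℂ} {s : ℝ} (hs : 0 ≤ s)
    (hf : ContinuousOn f (closedBall z s)) :
    Integrable (fun w : ℂ => P.χ w * f (z + (s : ℂ) * w)) := by
  have h1 : (fun w : ℂ => P.χ w * f (z + (s : ℂ) * w)) =
      (closedBall (0 : ℂ) 1).indicator (fun w : ℂ => P.χ w * f (z + (s : ℂ) * w)) := by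
    funext w
    by_cases hw : w ∈ closedBall (0 : ℂ) 1
    · rw [indicator_of_mem hw]
    · rw [indicator_of_notMem hw]
      have : P.χ w = 0 := P.χ_supp w (by
        rw [mem_closedBall, dist_zero_right] at hw
        linarith [not_le.1 hw])
      rw [this, zero_mul]
  rw [h1]
  rw [integrable_indicator_iff measurableSet_closedBall]
  apply ContinuousOn.integrableOn_compact (isCompact_closedBall 0 1)
  apply (χ_cont P).continuousOn.mul
  apply hf.comp (by fun_prop)
  intro w hw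
  rw [mem_closedBall, dist_zero_right] at hw
  exact mem_ball_avg hs hw

theorem cb_sub {z : ℂ} {s R : ℝ} (h : ‖z‖ + s < R) : closedBall z s ⊆ ball 0 R := by
  intro y hy
  rw [mem_closedBall, dist_eq_norm] at hy
  rw [mem_ball, dist_zero_right]
  have : ‖y‖ ≤ ‖y - z‖ + ‖z‖ := nle y z
  linarith

theorem avg_sub (P : Profile) {f g : ℂ → ℝ} {z : ℂ} {s : ℝ} (hs : 0 ≤ s)
    (hf : ContinuousOn f (closedBall z s)) (hg : ContinuousOn g (closedBall z s)) :
    avg P.χ (fun y => f y - g y) z s = avg P.χ f z s - avg P.χ g z s := by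
  unfold avg
  rw [← integral_sub (int_avg P hs hf) (int_avg P hs hg)]
  congr 1
  funext w
  ring

theorem avg_add (P : Profile) {f g : ℂ → ℝ} {z : ℂ} {s : ℝ} (hs : 0 ≤ s)
    (hf : ContinuousOn f (closedBall z s)) (hg : ContinuousOn g (closedBall z s)) :
    avg P.χ (fun y => f y + g y) z s = avg P.χ f z s + avg P.χ g z s := by
  unfold avg
  rw [← integral_add (int_avg P hs hf) (int_avg P hs hg)]
  congr 1
  funext w
  ring

theorem χ_integrable (P : Profile) : Integrable P.χ := by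
  have := int_avg P (f := fun _ => 1) (z := 0) (s := 0) le_rfl continuousOn_const
  simpa using this

theorem avg_const (P : Profile) (c : ℝ) (z : ℂ) (s : ℝ) : avg P.χ (fun _ => c) z s = c := by
  unfold avg
  rw [integral_mul_const, P.χ_int, one_mul]

theorem avg_le (P : Profile) {f : ℂ → ℝ} {z : ℂ} {s c : ℝ} (hs : 0 ≤ s)
    (hf : ContinuousOn f (closedBall z s)) (hc : ∀ y ∈ closedBall z s, f y ≤ c) :
    avg P.χ f z s ≤ c := by
  rw [← avg_const P c z s]
  unfold avg
  apply integral_mono (int_avg P hs hf) (int_avg P (f := fun _ => c) (z := z) hs continuousOn_const)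
  intro w
  show P.χ w * f (z + (s : ℂ) * w) ≤ P.χ w * c
  by_cases hw : ‖w‖ ≤ 1
  · exact mul_le_mul_of_nonneg_left (hc _ (mem_ball_avg hs hw)) (P.χ_nonneg w)
  · rw [P.χ_supp w (by linarith [not_le.1 hw]), zero_mul, zero_mul]

theorem avg_ge (P : Profile) {f : ℂ → ℝ} {z : ℂ} {s c : ℝ} (hs : 0 ≤ s)
    (hf : ContinuousOn f (closedBall z s)) (hc : ∀ y ∈ closedBall z s, c ≤ f y) :
    c ≤ avg P.χ f z s := by
  rw [← avg_const P c z s]
  unfold avg
  apply integral_mono (int_avg P (f := fun _ => c) (z := z) hs continuousOn_const) (int_avg P hs hf)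
  intro w
  show P.χ w * c ≤ P.χ w * f (z + (s : ℂ) * w)
  by_cases hw : ‖w‖ ≤ 1
  · exact mul_le_mul_of_nonneg_left (hc _ (mem_ball_avg hs hw)) (P.χ_nonneg w)
  · rw [P.χ_supp w (by linarith [not_le.1 hw]), zero_mul, zero_mul]

theorem avg_abs_le (P : Profile) {f : ℂ → ℝ} {z : ℂ} {s c : ℝ} (hs : 0 ≤ s)
    (hf : ContinuousOn f (closedBall z s)) (hc : ∀ y ∈ closedBall z s, |f y| ≤ c) :
    |avg P.χ f z s| ≤ c := by
  rw [abs_le]
  exact ⟨avg_ge P hs hf (fun y hy => (abs_le.1 (hc y hy)).1),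
    avg_le P hs hf (fun y hy => (abs_le.1 (hc y hy)).2)⟩

theorem avg_small (P : Profile) {f : ℂ → ℝ} {z : ℂ} {R : ℝ} (hz : ‖z‖ < R)
    (hf : ContinuousOn f (ball 0 R)) :
    Tendsto (fun s => avg P.χ f z s) (𝓝[>] 0) (𝓝 (f z)) := by
  have hzm : z ∈ ball (0 : ℂ) R := by simpa using hz
  have hc : ContinuousAt f z := hf.continuousAt (isOpen_ball.mem_nhds hzm)
  rw [Metric.tendsto_nhds]
  intro ε hε
  have h2 := Metric.continuousAt_iff.1 hc (ε / 2) (by positivity)
  obtain ⟨δ, hδ, h3⟩ := h2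
  have hm : 0 < min δ (R - ‖z‖) := lt_min hδ (by linarith)
  filter_upwards [Ioo_mem_nhdsGT hm] with s hs
  have hsδ : s < δ := lt_of_lt_of_le hs.2 (min_le_left _ _)
  have hsR : ‖z‖ + s < R := by
    have := lt_of_lt_of_le hs.2 (min_le_right _ _)
    linarith
  have hfc : ContinuousOn f (closedBall z s) := hf.mono (cb_sub hsR)
  rw [Real.dist_eq]
  have : avg P.χ f z s - f z = avg P.χ (fun y => f y - f z) z s := by
    rw [avg_sub P hs.1.le hfc continuousOn_const, avg_const]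
  rw [this]
  refine lt_of_le_of_lt (avg_abs_le P hs.1.le (hfc.sub continuousOn_const) (c := ε / 2) ?_)
    (by linarith)
  intro y hy
  have := h3 (x := y) (lt_of_le_of_lt hy hsδ)
  rw [Real.dist_eq] at this
  exact this.le

theorem avg_cont (P : Profile) {f : ℂ → ℝ} {R s : ℝ} (hs : 0 ≤ s)
    (hf : ContinuousOn f (ball 0 R)) :
    ContinuousOn (fun z => avg P.χ f z s) (ball 0 (R - s)) := by
  intro z₀ hz₀
  apply ContinuousAt.continuousWithinAt
  rw [mem_ball, dist_zero_right] at hz₀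
  set δ := (R - s - ‖z₀‖) / 2 with hδ
  have hδ0 : 0 < δ := by rw [hδ]; linarith
  -- bound on compact
  obtain ⟨B, hB⟩ := (isCompact_closedBall (0 : ℂ) (R - δ)).exists_bound_of_continuousOn
    (hf.mono (closedBall_subset_ball (by linarith)))
  unfold avg
  apply continuousAt_of_dominated (bound := fun w => P.χ w * B)
  · filter_upwards [ball_mem_nhds z₀ hδ0] with z hz
    have h1 : ‖z‖ + s < R := by
      rw [mem_ball, dist_eq_norm] at hz
      have : ‖z‖ ≤ ‖z - z₀‖ + ‖z₀‖ := nle z z₀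
      linarith
    exact (int_avg P hs (hf.mono (cb_sub h1))).aestronglyMeasurable
  · filter_upwards [ball_mem_nhds z₀ hδ0] with z hz
    have h1 : ‖z‖ + s ≤ R - δ := by
      rw [mem_ball, dist_eq_norm] at hz
      have : ‖z‖ ≤ ‖z - z₀‖ + ‖z₀‖ := nle z z₀
      linarith
    filter_upwards with w
    by_cases hw : ‖w‖ ≤ 1
    · rw [norm_mul, Real.norm_eq_abs, abs_of_nonneg (P.χ_nonneg w)]
      apply mul_le_mul_of_nonneg_left _ (P.χ_nonneg w)
      apply hB
      rw [mem_closedBall, dist_zero_right]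
      have h3 := mem_ball_avg (z := z) hs hw
      rw [mem_closedBall, dist_eq_norm] at h3
      have : ‖z + (s : ℂ) * w‖ ≤ ‖z + (s : ℂ) * w - z‖ + ‖z‖ := nle _ z
      linarith
    · rw [P.χ_supp w (by linarith [not_le.1 hw]), zero_mul, zero_mul, norm_zero]
  · exact (χ_integrable P).mul_const B
  · filter_upwards with w
    by_cases hw : ‖w‖ ≤ 1
    · apply ContinuousAt.mul continuousAt_const
      have h4 : z₀ + (s : ℂ) * w ∈ ball (0 : ℂ) R := by
        have h3 := mem_ball_avg (z := z₀) hs hw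
        exact cb_sub (by linarith) h3
      apply ContinuousAt.comp (g := f) (f := fun z => z + (s : ℂ) * w)
      · exact hf.continuousAt (isOpen_ball.mem_nhds h4)
      · fun_prop
    · simp only [P.χ_supp w (by linarith [not_le.1 hw]), zero_mul]
      exact continuousAt_const

/-- Fubini: averaging operators commute. -/
theorem avg_swap (P : Profile) {f : ℂ → ℝ} {R r s : ℝ} {z : ℂ} (hr : 0 ≤ r) (hs : 0 ≤ s)
    (hf : ContinuousOn f (ball 0 R)) (hz : ‖z‖ + r + s < R) :
    avg P.χ (fun y => avg P.χ f y s) z r = avg P.χ (fun y => avg P.χ f y r) z s := by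
  have hI : Integrable (fun p : ℂ × ℂ =>
      P.χ p.1 * (P.χ p.2 * f (z + (r : ℂ) * p.1 + (s : ℂ) * p.2)))
      (volume.prod volume) := by
    have h1 : (fun p : ℂ × ℂ => P.χ p.1 * (P.χ p.2 * f (z + (r : ℂ) * p.1 + (s : ℂ) * p.2))) =
      (closedBall (0 : ℂ) 1 ×ˢ closedBall (0 : ℂ) 1).indicator
        (fun p : ℂ × ℂ => P.χ p.1 * (P.χ p.2 * f (z + (r : ℂ) * p.1 + (s : ℂ) * p.2))) := by
      funext p
      by_cases hw : p ∈ closedBall (0 : ℂ) 1 ×ˢ closedBall (0 : ℂ) 1
      · rw [indicator_of_mem hw]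
      · rw [indicator_of_notMem hw]
        rw [mem_prod, not_and_or] at hw
        rcases hw with hw | hw
        · rw [mem_closedBall, dist_zero_right] at hw
          rw [P.χ_supp p.1 (by linarith [not_le.1 hw]), zero_mul]
        · rw [mem_closedBall, dist_zero_right] at hw
          rw [P.χ_supp p.2 (by linarith [not_le.1 hw]), zero_mul, mul_zero]
    rw [h1, integrable_indicator_iff (measurableSet_closedBall.prod measurableSet_closedBall)]
    apply ContinuousOn.integrableOn_compact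
      ((isCompact_closedBall 0 1).prod (isCompact_closedBall 0 1))
    apply ContinuousOn.mul ((χ_cont P).comp continuous_fst).continuousOn
    apply ContinuousOn.mul ((χ_cont P).comp continuous_snd).continuousOn
    apply hf.comp (by fun_prop)
    intro p hp
    rw [mem_prod, mem_closedBall, mem_closedBall, dist_zero_right, dist_zero_right] at hp
    have h3 := mem_ball_avg (z := z) hr hp.1
    have h4 := mem_ball_avg (z := z + (r : ℂ) * p.1) hs hp.2
    apply cb_sub (z := z + (r : ℂ) * p.1) (s := s) _ h4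
    rw [mem_closedBall, dist_eq_norm] at h3
    have : ‖z + (r : ℂ) * p.1‖ ≤ ‖z + (r : ℂ) * p.1 - z‖ + ‖z‖ := nle _ z
    linarith
  have hsw := integral_integral_swap (μ := (volume : Measure ℂ)) (ν := (volume : Measure ℂ))
    (f := fun w w' => P.χ w * (P.χ w' * f (z + (r : ℂ) * w + (s : ℂ) * w'))) hI
  have hL : avg P.χ (fun y => avg P.χ f y s) z r =
      ∫ w, ∫ w', P.χ w * (P.χ w' * f (z + (r : ℂ) * w + (s : ℂ) * w')) := by
    unfold avg
    congr 1
    funext w
    rw [integral_const_mul]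
  have hR : avg P.χ (fun y => avg P.χ f y r) z s =
      ∫ w', ∫ w, P.χ w * (P.χ w' * f (z + (r : ℂ) * w + (s : ℂ) * w')) := by
    unfold avg
    congr 1
    funext w
    rw [← integral_const_mul]
    congr 1
    funext w'
    rw [show z + (s : ℂ) * w + (r : ℂ) * w' = z + (r : ℂ) * w' + (s : ℂ) * w by ring]
    ring
  rw [hL, hR, hsw]

/-- change of variables -/
theorem avg_eq (P : Profile) (f : ℂ → ℝ) (z : ℂ) {r : ℝ} (hr : 0 < r) :
    avg P.χ f z r = ∫ y : ℂ, ((r⁻¹) ^ 2 * P.χ (((r⁻¹ : ℝ) : ℂ) * (y - z))) * f y := by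
  have h1 : ∫ y : ℂ, ((r⁻¹) ^ 2 * P.χ (((r⁻¹ : ℝ) : ℂ) * (y - z))) * f y =
      ∫ y : ℂ, ((r⁻¹) ^ 2 * P.χ (((r⁻¹ : ℝ) : ℂ) * y)) * f (z + y) := by
    rw [← integral_add_left_eq_self (fun y : ℂ =>
      ((r⁻¹) ^ 2 * P.χ (((r⁻¹ : ℝ) : ℂ) * (y - z))) * f y) z]
    congr 1
    funext y
    rw [add_sub_cancel_left]
  rw [h1]
  have h2 := MeasureTheory.Measure.integral_comp_smul (volume : Measure ℂ)
    (fun y : ℂ => ((r⁻¹) ^ 2 * P.χ (((r⁻¹ : ℝ) : ℂ) * y)) * f (z + y)) r
  rw [Complex.finrank_real_complex] at h2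
  have h3 : ∫ y : ℂ, ((r⁻¹) ^ 2 * P.χ (((r⁻¹ : ℝ) : ℂ) * y)) * f (z + y) =
      r ^ 2 * ∫ x : ℂ, (fun y : ℂ => ((r⁻¹) ^ 2 * P.χ (((r⁻¹ : ℝ) : ℂ) * y)) * f (z + y)) (r • x) := by
    rw [h2, abs_of_pos (by positivity), smul_eq_mul]
    field_simp
  rw [h3, ← integral_const_mul]
  unfold avg
  congr 1
  funext w
  have hr' : (r : ℂ) ≠ 0 := by exact_mod_cast hr.ne'
  simp only [Complex.real_smul]
  have h4 : ((r⁻¹ : ℝ) : ℂ) * ((r : ℂ) * w) = w := by
    push_cast
    field_simp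
  rw [h4]
  field_simp

end Helper78.GL
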