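import Pool.Agent.Helper99.GL.TSDefs

set_option autoImplicit false

/-!
Definitions for the potential-theoretic half (A) of MP_a31c1c_an (S05669).
The translation surface `Pool.GL.TS` is in `Pool.Agent.Helper99.GL.TSDefs`.
-/

open MeasureTheory Metric Set Filter Topology

namespace Helper78.GL

/-- first partial derivatives and Laplacian of a real function on `ℂ = ℝ²` -/
noncomputable def dX (f : ℂ → ℝ) (z : ℂ) : ℝ := fderiv ℝ f z 1

noncomputable def dY (f : ℂ → ℝ) (z : ℂ) : ℝ := fderiv ℝ f z Complex.I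

noncomputable def lap (f : ℂ → ℝ) (z : ℂ) : ℝ := dX (dX f) z + dY (dY f) z

/-- Dirichlet energy on `ball 0 R` -/
noncomputable def en (f : ℂ → ℝ) (R : ℝ) : ℝ :=
  ∫ z in ball (0 : ℂ) R, ((dX f z) ^ 2 + (dY f z) ^ 2)

/-- average of `f` against the profile `χ`, at centre `a` and scale `r` -/
noncomputable def avg (χ f : ℂ → ℝ) (a : ℂ) (r : ℝ) : ℝ :=
  ∫ w : ℂ, χ w * f (a + (r : ℂ) * w)

/-- A radial mollifier profile with explicit potentials. -/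
structure Profile where
  χ : ℂ → ℝ
  χ_smooth : ContDiff ℝ (⊤ : ℕ∞) χ
  χ_nonneg : ∀ w, 0 ≤ χ w
  χ_supp : ∀ w : ℂ, 1 ≤ ‖w‖ → χ w = 0
  χ_symm : ∀ w : ℂ, χ (-w) = χ w
  χ_int : ∫ w, χ w = 1
  /-- potential of the scale `r` mollifier -/
  h : ℝ → ℂ → ℝ
  h_smooth : ∀ r, 0 < r → ContDiff ℝ (⊤ : ℕ∞) (h r)
  h_lap : ∀ r, 0 < r → ∀ w, lap (h r) w = -((r⁻¹) ^ 2 * χ ((r⁻¹ : ℝ) * w))
  /-- difference of potentials, normalised -/
  ψ : ℝ → ℝ → ℂ → ℝ
  ψ_smooth : ∀ r s, 0 < r → r < s → ContDiff ℝ (⊤ : ℕ∞) (ψ r s)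
  ψ_supp : ∀ r s, 0 < r → r < s → ∀ w : ℂ, s ≤ ‖w‖ → ψ r s w = 0
  ψ_lap : ∀ r s, 0 < r → r < s → ∀ w,
    lap (ψ r s) w = (r⁻¹) ^ 2 * χ ((r⁻¹ : ℝ) * w) - (s⁻¹) ^ 2 * χ ((s⁻¹ : ℝ) * w)
  ψ_nonpos : ∀ r s, 0 < r → r < s → ∀ w, ψ r s w ≤ 0
  ψ_neg : ∀ r s, 0 < r → r < s → ψ r s 0 < 0

end Helper78.GL

namespace Pool.GL.TS

open Helper78.GL

variable {M : Type} (T : TS M)

/-- continuous along the surface -/
def Cont (v : M → ℝ) : Prop :=
  ∀ p, ContinuousOn (fun z => v (T.Phi p z)) (ball 0 (T.rho p))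

/-- `v` is `C¹` along the surface -/
def Smooth (v : M → ℝ) : Prop :=
  ∀ p, ContDiffOn ℝ 1 (fun z => v (T.Phi p z)) (ball 0 (T.rho p))

/-- support inside finitely many closed discs of radius `< rho/4` -/
def CSupp (v : M → ℝ) : Prop :=
  ∃ S : Finset (M × ℝ), (∀ a ∈ S, 0 < a.2 ∧ a.2 < T.rho a.1 / 4) ∧
    ∀ x, v x ≠ 0 → ∃ a ∈ S, ∃ z : ℂ, ‖z‖ ≤ a.2 ∧ x = T.Phi a.1 z

/-- test functions -/
def Test (v : M → ℝ) : Prop := T.Smooth v ∧ T.CSupp v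

/-- area measure of the surface (Lebesgue measure in every disc `Phi p (ball 0 r)`,
`r ≤ rho p / 4`); every set with measurable traces in the discs is measurable -/
def IsArea [MeasurableSpace M] (μ : Measure M) : Prop :=
  (∀ S : Set M, (∀ p, MeasurableSet {z : ℂ | ‖z‖ < T.rho p / 4 ∧ T.Phi p z ∈ S}) →
    MeasurableSet S) ∧
  ∀ p r, 0 < r → r ≤ T.rho p / 4 →
    AEMeasurable (T.Phi p) (volume.restrict (ball (0 : ℂ) r)) ∧
    μ.restrict (T.disc p r) = Measure.map (T.Phi p) (volume.restrict (ball (0 : ℂ) r))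

/-- derivatives along the surface -/
noncomputable def dx (v : M → ℝ) (x : M) : ℝ := dX (fun z => v (T.Phi x z)) 0

noncomputable def dy (v : M → ℝ) (x : M) : ℝ := dY (fun z => v (T.Phi x z)) 0

/-- Dirichlet form -/
noncomputable def D [MeasurableSpace M] (μ : Measure M) (v w : M → ℝ) : ℝ :=
  ∫ x, (T.dx v x * T.dx w x + T.dy v x * T.dy w x) ∂μ

/-- transplant a function on `ℂ` to the disc at `p` of radius `rho p / 4` -/
noncomputable def bump (p : M) (ψ : ℂ → ℝ) (x : M) : ℝ := by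
  classical
  exact if h : ∃ z : ℂ, ‖z‖ < T.rho p / 4 ∧ x = T.Phi p z then ψ h.choose else 0

end Pool.GL.TS
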