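import Pool.Agent.Helper78.GL.AvgLib

set_option autoImplicit false

open MeasureTheory Metric Set Filter Topology

namespace Helper78.GL

theorem two_le_infty : (2 : WithTop ℕ∞) ≤ ((⊤ : ℕ∞) : WithTop ℕ∞) :=
  WithTop.coe_le_coe.2 le_top

theorem one_le_infty : (1 : WithTop ℕ∞) ≤ ((⊤ : ℕ∞) : WithTop ℕ∞) :=
  WithTop.coe_le_coe.2 le_top

theorem dX_shift (ψ : ℂ → ℝ) (z w : ℂ) : dX (fun y => ψ (y - z)) w = dX ψ (w - z) := by
  unfold dX
  rw [fderiv_comp_sub]

theorem dY_shift (ψ : ℂ → ℝ) (z w : ℂ) : dY (fun y => ψ (y - z)) w = dY ψ (w - z) := by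
  unfold dY
  rw [fderiv_comp_sub]

theorem lap_shift (ψ : ℂ → ℝ) (z w : ℂ) : lap (fun y => ψ (y - z)) w = lap ψ (w - z) := by
  have h1 : dX (fun y => ψ (y - z)) = fun w => dX ψ (w - z) := funext (dX_shift ψ z)
  have h2 : dY (fun y => ψ (y - z)) = fun w => dY ψ (w - z) := funext (dY_shift ψ z)
  unfold lap
  rw [h1, h2, dX_shift, dY_shift]

/-- harmonic case -/
theorem ll0 (hT : S_TRANS) (hG : S_GRN) (hM : S_MV) (P : Profile) (R : ℝ) (v : ℕ → ℂ → ℝ)
    (hR : 0 < R) (hv : ∀ n, ContDiffOn ℝ 1 (v n) (ball 0 R))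
    (ha : ∀ R', 0 < R' → R' < R → ∀ ε, 0 < ε → ∃ N, ∀ n m, N ≤ n → N ≤ m →
      en (fun z => v n z - v m z) R' ≤ ε)
    (hb : ∃ r₁ l, 0 < r₁ ∧ r₁ < R ∧ Tendsto (fun n => avg P.χ (v n) 0 r₁) atTop (𝓝 l))
    (hc : ∀ ψ : ℂ → ℝ, ContDiff ℝ (⊤ : ℕ∞) ψ →
      (∃ r, 0 < r ∧ r < R ∧ ∀ w : ℂ, r ≤ ‖w‖ → ψ w = 0) →
      Tendsto (fun n => ∫ z : ℂ, (dX (v n) z * dX ψ z + dY (v n) z * dY ψ z)) atTop (𝓝 0)) :
    ∃ g : ℂ → ℝ, ContDiffOn ℝ 2 g (ball 0 R) ∧ (∀ z ∈ ball (0 : ℂ) R, lap g z = 0) ∧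
      ∀ (z : ℂ) (s : ℝ), 0 < s → ‖z‖ + s < R →
        Tendsto (fun n => avg P.χ (v n) z s) atTop (𝓝 (avg P.χ g z s)) := by
  have hvc : ∀ n, ContinuousOn (v n) (ball 0 R) := fun n => (hv n).continuousOn
  have hvcb : ∀ n (z : ℂ) (s : ℝ), ‖z‖ + s < R → ContinuousOn (v n) (closedBall z s) :=
    fun n z s h => (hvc n).mono (cb_sub h)
  obtain ⟨r₁, l, hr₁, hr₁R, hl⟩ := hb
  -- step 1
  have hU : ∀ s₀ R', 0 < s₀ → R' < R → ∀ ε, 0 < ε → ∃ N, ∀ n m, N ≤ n → N ≤ m →
      ∀ (z : ℂ) (s : ℝ), s₀ ≤ s → ‖z‖ + s ≤ R' →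
        |avg P.χ (v n) z s - avg P.χ (v m) z s| ≤ ε := by
    intro s₀ R' hs₀ hR' ε hε
    obtain ⟨C, hC, hCT⟩ := hT P (1 + R / r₁ + R / s₀) (by
      have : 0 ≤ R / r₁ := by positivity
      have : 0 ≤ R / s₀ := by positivity
      linarith)
    obtain ⟨N₁, hN₁⟩ := Metric.cauchySeq_iff.1 hl.cauchySeq (ε / 2) (by positivity)
    have hR₁ : max R' r₁ < R := max_lt hR' hr₁R
    have hR₁0 : 0 < max R' r₁ := lt_max_of_lt_right hr₁
    obtain ⟨N₂, hN₂⟩ := ha (max R' r₁) hR₁0 hR₁ ((ε / (2 * (C + 1))) ^ 2) (by positivity)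
    refine ⟨max N₁ N₂, ?_⟩
    intro n m hn hm z s hs hzs
    have hs0 : 0 < s := lt_of_lt_of_le hs₀ hs
    have hzsR : ‖z‖ + s < R := lt_of_le_of_lt hzs hR'
    have hsR : s < R := by linarith [norm_nonneg z]
    have hzR : ‖z‖ < R := by linarith
    have h1 := hCT (fun y => v n y - v m y) R (max R' r₁) r₁ s 0 z hr₁ hs0
      (by
        have h0 : R = R / r₁ * r₁ := by field_simp
        have h2 : 0 ≤ R / s₀ * r₁ := by positivity
        nlinarith)
      (by
        have h0 : R = R / s₀ * s₀ := by field_simp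
        have h2 : 0 ≤ R / r₁ * s := by positivity
        have h3 : R / s₀ * s₀ ≤ R / s₀ * s := by
          apply mul_le_mul_of_nonneg_left hs; positivity
        nlinarith)
      (by
        rw [sub_zero]
        have h0 : R = R / r₁ * r₁ := by field_simp
        have h2 : 0 ≤ R / s₀ * r₁ := by positivity
        nlinarith)
      (by rw [norm_zero, zero_add]; exact le_max_right _ _)
      (le_trans hzs (le_max_left _ _)) hR₁ ((hv n).sub (hv m))
    rw [avg_sub P hr₁.le (hvcb n 0 r₁ (by simpa using hr₁R)) (hvcb m 0 r₁ (by simpa using hr₁R)),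
      avg_sub P hs0.le (hvcb n z s hzsR) (hvcb m z s hzsR)] at h1
    have h2 := hN₁ n (le_trans (le_max_left _ _) hn) m (le_trans (le_max_left _ _) hm)
    rw [Real.dist_eq] at h2
    have h3 := hN₂ n m (le_trans (le_max_right _ _) hn) (le_trans (le_max_right _ _) hm)
    have h4 : √(en (fun z => v n z - v m z) (max R' r₁)) ≤ ε / (2 * (C + 1)) := by
      rw [← Real.sqrt_sq (show (0 : ℝ) ≤ ε / (2 * (C + 1)) by positivity)]
      exact Real.sqrt_le_sqrt h3
    have h5 : C * √(en (fun z => v n z - v m z) (max R' r₁)) ≤ ε / 2 := by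
      calc C * √(en (fun z => v n z - v m z) (max R' r₁)) ≤ C * (ε / (2 * (C + 1))) :=
            mul_le_mul_of_nonneg_left h4 hC
        _ ≤ (C + 1) * (ε / (2 * (C + 1))) := by
            apply mul_le_mul_of_nonneg_right (by linarith); positivity
        _ = ε / 2 := by field_simp
    have h6 := abs_sub_abs_le_abs_sub (avg P.χ (v n) z s - avg P.χ (v m) z s)
      (avg P.χ (v n) 0 r₁ - avg P.χ (v m) 0 r₁)
    rw [abs_sub_comm (avg P.χ (v n) z s - avg P.χ (v m) z s)] at h6
    linarith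
  -- step 2
  have hlim : ∀ (z : ℂ) (s : ℝ), ∃ a : ℝ, 0 < s → ‖z‖ + s < R →
      Tendsto (fun n => avg P.χ (v n) z s) atTop (𝓝 a) := by
    intro z s
    by_cases h : 0 < s ∧ ‖z‖ + s < R
    · have hcau : CauchySeq (fun n => avg P.χ (v n) z s) := by
        rw [Metric.cauchySeq_iff]
        intro ε hε
        obtain ⟨N, hN⟩ := hU s (‖z‖ + s) h.1 h.2 (ε / 2) (by positivity)
        refine ⟨N, fun n hn m hm => ?_⟩
        rw [Real.dist_eq]
        exact lt_of_le_of_lt (hN n m hn hm z s le_rfl le_rfl) (by linarith)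
      obtain ⟨a, ha'⟩ := cauchySeq_tendsto_of_complete hcau
      exact ⟨a, fun _ _ => ha'⟩
    · exact ⟨0, fun h1 h2 => absurd ⟨h1, h2⟩ h⟩
  choose G hGl using hlim
  -- step 3
  have hdiff : ∀ (z : ℂ) (r s : ℝ), 0 < r → r < s → ‖z‖ + s < R →
      Tendsto (fun n => avg P.χ (v n) z r - avg P.χ (v n) z s) atTop (𝓝 0) := by
    intro z r s hr hrs hzs
    have hs : 0 < s := hr.trans hrs
    have h1 := hc (fun w => P.ψ r s (w - z))
      ((P.ψ_smooth r s hr hrs).comp (contDiff_id.sub contDiff_const))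
      ⟨‖z‖ + s, by positivity, hzs, fun w hw => P.ψ_supp r s hr hrs _ (by
        have := norm_sub_norm_le w z
        linarith)⟩
    have h2 : ∀ n, avg P.χ (v n) z r - avg P.χ (v n) z s =
        - ∫ w : ℂ, (dX (v n) w * dX (fun w => P.ψ r s (w - z)) w +
          dY (v n) w * dY (fun w => P.ψ r s (w - z)) w) := by
      intro n
      rw [← hG R (‖z‖ + s) (v n) (fun w => P.ψ r s (w - z)) (by positivity) hzs (hv n)
        (((P.ψ_smooth r s hr hrs).comp (contDiff_id.sub contDiff_const)).of_le two_le_infty)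
        (fun w hw => P.ψ_supp r s hr hrs _ (by
          have := norm_sub_norm_le w z
          linarith))]
      rw [avg_eq P (v n) z hr, avg_eq P (v n) z hs]
      rw [← integral_sub]
      · congr 1
        funext y
        rw [lap_shift, P.ψ_lap r s hr hrs]
        ring
      · have h3 := int_avg P hr.le (hvcb n z r (by linarith))
        have h4 := (integrable_comp_smul_iff (volume : Measure ℂ)
          (fun y : ℂ => ((r⁻¹) ^ 2 * P.χ (((r⁻¹ : ℝ) : ℂ) * y)) * v n (z + y)) hr.ne').1 (by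
            have : (fun x : ℂ => (fun y : ℂ => ((r⁻¹) ^ 2 * P.χ (((r⁻¹ : ℝ) : ℂ) * y)) *
                v n (z + y)) (r • x)) = fun w : ℂ => (r⁻¹) ^ 2 * (P.χ w * v n (z + (r : ℂ) * w)) := by
              funext w
              have hr' : (r : ℂ) ≠ 0 := by exact_mod_cast hr.ne'
              simp only [Complex.real_smul]
              have h4 : ((r⁻¹ : ℝ) : ℂ) * ((r : ℂ) * w) = w := by
                push_cast
                field_simp
              rw [h4]
              ring
            rw [this]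
            exact h3.const_mul _)
        have h5 := h4.comp_sub_right z
        refine h5.congr (Eventually.of_forall fun y => ?_)
        show ((r⁻¹) ^ 2 * P.χ (((r⁻¹ : ℝ) : ℂ) * (y - z))) * v n (z + (y - z)) = _
        rw [add_sub_cancel]
      · have h3 := int_avg P hs.le (hvcb n z s (by linarith))
        have h4 := (integrable_comp_smul_iff (volume : Measure ℂ)
          (fun y : ℂ => ((s⁻¹) ^ 2 * P.χ (((s⁻¹ : ℝ) : ℂ) * y)) * v n (z + y)) hs.ne').1 (by
            have : (fun x : ℂ => (fun y : ℂ => ((s⁻¹) ^ 2 * P.χ (((s⁻¹ : ℝ) : ℂ) * y)) *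
                v n (z + y)) (s • x)) = fun w : ℂ => (s⁻¹) ^ 2 * (P.χ w * v n (z + (s : ℂ) * w)) := by
              funext w
              have hr' : (s : ℂ) ≠ 0 := by exact_mod_cast hs.ne'
              simp only [Complex.real_smul]
              have h4 : ((s⁻¹ : ℝ) : ℂ) * ((s : ℂ) * w) = w := by
                push_cast
                field_simp
              rw [h4]
              ring
            rw [this]
            exact h3.const_mul _)
        have h5 := h4.comp_sub_right z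
        refine h5.congr (Eventually.of_forall fun y => ?_)
        show ((s⁻¹) ^ 2 * P.χ (((s⁻¹ : ℝ) : ℂ) * (y - z))) * v n (z + (y - z)) = _
        rw [add_sub_cancel]
    have h3 := h1.neg
    rw [neg_zero] at h3
    refine h3.congr (fun n => (h2 n).symm)
  have hGrs : ∀ (z : ℂ) (r s : ℝ), 0 < r → r < s → ‖z‖ + s < R → G z r = G z s := by
    intro z r s hr hrs hzs
    have h1 := hGl z r hr (by linarith)
    have h2 := hGl z s (hr.trans hrs) hzs
    have h3 := tendsto_nhds_unique (h1.sub h2) (hdiff z r s hr hrs hzs)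
    linarith
  have hGeq : ∀ (z : ℂ) (r s : ℝ), 0 < r → 0 < s → ‖z‖ + r < R → ‖z‖ + s < R →
      G z r = G z s := by
    intro z r s hr hs hzr hzs
    rcases lt_trichotomy r s with h | h | h
    · exact hGrs z r s hr h hzs
    · rw [h]
    · exact (hGrs z s r hs h hzr).symm
  -- step 4
  set g : ℂ → ℝ := fun z => G z ((R - ‖z‖) / 2) with hg
  have hgl : ∀ (z : ℂ) (s : ℝ), 0 < s → ‖z‖ + s < R →
      Tendsto (fun n => avg P.χ (v n) z s) atTop (𝓝 (g z)) := by
    intro z s hs hzs
    have h1 := hGl z s hs hzs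
    have h2 : G z s = g z := hGeq z s _ hs (by linarith) hzs (by linarith)
    rwa [h2] at h1
  -- step 5
  have hU' : ∀ s₀ R', 0 < s₀ → R' < R → ∀ ε, 0 < ε → ∃ N, ∀ n, N ≤ n →
      ∀ (z : ℂ) (s : ℝ), s₀ ≤ s → ‖z‖ + s ≤ R' → |avg P.χ (v n) z s - g z| ≤ ε := by
    intro s₀ R' hs₀ hR' ε hε
    obtain ⟨N, hN⟩ := hU s₀ R' hs₀ hR' ε hε
    refine ⟨N, fun n hn z s hs hzs => ?_⟩
    have h1 := hgl z s (lt_of_lt_of_le hs₀ hs) (lt_of_le_of_lt hzs hR')
    have h2 : Tendsto (fun m => |avg P.χ (v n) z s - avg P.χ (v m) z s|) atTop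
        (𝓝 |avg P.χ (v n) z s - g z|) := (tendsto_const_nhds.sub h1).abs
    refine le_of_tendsto h2 ?_
    filter_upwards [eventually_ge_atTop N] with m hm
    exact hN n m hn hm z s hs hzs
  -- step 6
  have hgc : ContinuousOn g (ball 0 R) := by
    intro z₀ hz₀
    apply ContinuousAt.continuousWithinAt
    rw [mem_ball, dist_zero_right] at hz₀
    set s := (R - ‖z₀‖) / 4 with hs
    have hs0 : 0 < s := by rw [hs]; linarith
    rw [Metric.continuousAt_iff]
    intro ε hε
    obtain ⟨N, hN⟩ := hU' s (R - s) hs0 (by linarith) (ε / 4) (by positivity)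
    have hcN : ContinuousAt (fun z => avg P.χ (v N) z s) z₀ := by
      apply (avg_cont P hs0.le (hvc N)).continuousAt
      apply isOpen_ball.mem_nhds
      rw [mem_ball, dist_zero_right]
      linarith
    obtain ⟨δ, hδ, hδc⟩ := Metric.continuousAt_iff.1 hcN (ε / 4) (by positivity)
    refine ⟨min δ s, lt_min hδ hs0, fun {z} hz => ?_⟩
    have hzδ : dist z z₀ < δ := lt_of_lt_of_le hz (min_le_left _ _)
    have hzs : dist z z₀ < s := lt_of_lt_of_le hz (min_le_right _ _)
    have h1 := hδc hzδ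
    rw [Real.dist_eq] at h1 ⊢
    have h2 : ‖z‖ + s ≤ R - s := by
      rw [dist_eq_norm] at hzs
      have := nle z z₀
      linarith
    have h3 := hN N le_rfl z s le_rfl h2
    have h4 := hN N le_rfl z₀ s le_rfl (by linarith)
    rw [abs_le] at h3 h4
    rw [abs_lt] at h1 ⊢
    constructor <;> linarith [h1.1, h1.2, h3.1, h3.2, h4.1, h4.2]
  -- step 7
  have hconv : ∀ (z : ℂ) (r s : ℝ), 0 < r → 0 < s → ‖z‖ + r + s < R →
      Tendsto (fun n => avg P.χ (fun y => avg P.χ (v n) y s) z r) atTop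
        (𝓝 (avg P.χ g z r)) := by
    intro z r s hr hs hz
    rw [Metric.tendsto_atTop]
    intro ε hε
    obtain ⟨N, hN⟩ := hU' s (‖z‖ + r + s) hs hz (ε / 2) (by positivity)
    refine ⟨N, fun n hn => ?_⟩
    rw [Real.dist_eq]
    have hc1 : ContinuousOn (fun y => avg P.χ (v n) y s) (closedBall z r) :=
      (avg_cont P hs.le (hvc n)).mono (cb_sub (by linarith))
    have hc2 : ContinuousOn g (closedBall z r) := hgc.mono (cb_sub (by linarith))
    rw [← avg_sub P hr.le hc1 hc2]
    refine lt_of_le_of_lt (avg_abs_le P hr.le (hc1.sub hc2) (c := ε / 2) ?_) (by linarith)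
    intro y hy
    apply hN n hn y s le_rfl
    rw [mem_closedBall, dist_eq_norm] at hy
    have := nle y z
    linarith
  have hmv : ∀ (z : ℂ) (r : ℝ), 0 < r → ‖z‖ + r < R → avg P.χ g z r = g z := by
    intro z r hr hz
    have h1 : ∀ s, 0 < s → ‖z‖ + r + s < R → avg P.χ g z s = avg P.χ g z r := by
      intro s hs hzs
      have h2 := hconv z r s hr hs hzs
      have h3 := hconv z s r hs hr (by linarith)
      have h4 : (fun n => avg P.χ (fun y => avg P.χ (v n) y s) z r) =
          fun n => avg P.χ (fun y => avg P.χ (v n) y r) z s := by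
        funext n
        exact avg_swap P hr.le hs.le (hvc n) hzs
      rw [h4] at h2
      exact tendsto_nhds_unique h3 h2
    have h5 := avg_small P (z := z) (by linarith) hgc
    have h6 : Tendsto (fun s => avg P.χ g z s) (𝓝[>] 0) (𝓝 (avg P.χ g z r)) := by
      refine tendsto_const_nhds.congr' ?_
      filter_upwards [Ioo_mem_nhdsGT (show (0 : ℝ) < R - ‖z‖ - r by linarith)] with s hs
      exact (h1 s hs.1 (by linarith [hs.2])).symm
    exact tendsto_nhds_unique h6 h5
  obtain ⟨hg1, hg2⟩ := hM P R g hR hgc hmv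
  refine ⟨g, hg1, hg2, ?_⟩
  intro z s hs hzs
  rw [hmv z s hs hzs]
  exact hgl z s hs hzs

theorem dX_congr' {f g : ℂ → ℝ} {z : ℂ} (h : f =ᶠ[𝓝 z] g) : dX f =ᶠ[𝓝 z] dX g := by
  filter_upwards [h.eventuallyEq_nhds] with w hw
  unfold dX
  rw [hw.fderiv_eq]

theorem dY_congr' {f g : ℂ → ℝ} {z : ℂ} (h : f =ᶠ[𝓝 z] g) : dY f =ᶠ[𝓝 z] dY g := by
  filter_upwards [h.eventuallyEq_nhds] with w hw
  unfold dY
  rw [hw.fderiv_eq]

theorem lap_congr' {f g : ℂ → ℝ} {z : ℂ} (h : f =ᶠ[𝓝 z] g) : lap f z = lap g z := by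
  unfold lap
  rw [(dX_congr' (dX_congr' h)).eq_of_nhds, (dY_congr' (dY_congr' h)).eq_of_nhds]

/-- Green's identity, integrating by parts towards the smooth function `h`. -/
theorem green_sym (hG : S_GRN) {h ψ : ℂ → ℝ} {r : ℝ} (hh : ContDiff ℝ (⊤ : ℕ∞) h)
    (hψ : ContDiff ℝ (⊤ : ℕ∞) ψ) (hr : 0 < r) (hs : ∀ w : ℂ, r ≤ ‖w‖ → ψ w = 0) :
    ∫ z : ℂ, (dX h z * dX ψ z + dY h z * dY ψ z) = - ∫ z : ℂ, lap h z * ψ z := by
  let η : ContDiffBump (0 : ℂ) := ⟨r + 1, r + 2, by linarith, by linarith⟩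
  set H : ℂ → ℝ := fun z => η z * h z with hH
  have hHs : ContDiff ℝ (⊤ : ℕ∞) H := (η.contDiff (n := ⊤)).mul hh
  have h1 := hG (r + 3) (r + 2) ψ H (by linarith) (by linarith)
    ((hψ.of_le one_le_infty).contDiffOn) (hHs.of_le two_le_infty) (by
      intro w hw
      have : η w = 0 := η.zero_of_le_dist (by rw [dist_zero_right]; exact hw)
      rw [hH]
      show η w * h w = 0
      rw [this, zero_mul])
  have hin : ∀ z : ℂ, ‖z‖ < r + 1 → H =ᶠ[𝓝 z] h := by
    intro z hz
    filter_upwards [isOpen_ball.mem_nhds (show z ∈ ball (0 : ℂ) (r + 1) by simpa using hz)]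
      with y hy
    have : η y = 1 := η.one_of_mem_closedBall (ball_subset_closedBall hy)
    show η y * h y = h y
    rw [this, one_mul]
  have hout : ∀ z : ℂ, r + 1 ≤ ‖z‖ → ψ =ᶠ[𝓝 z] fun _ => 0 := by
    intro z hz
    have : {y : ℂ | r < ‖y‖} ∈ 𝓝 z :=
      (isOpen_lt continuous_const continuous_norm).mem_nhds (show r < ‖z‖ by linarith)
    filter_upwards [this] with y hy
    exact hs y (le_of_lt hy)
  have h2 : (fun z : ℂ => lap H z * ψ z) = fun z => lap h z * ψ z := by
    funext z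
    by_cases hz : ‖z‖ < r + 1
    · rw [lap_congr' (hin z hz)]
    · rw [hs z (by linarith [not_lt.1 hz]), mul_zero, mul_zero]
  have h3 : (fun z : ℂ => dX ψ z * dX H z + dY ψ z * dY H z) =
      fun z => dX h z * dX ψ z + dY h z * dY ψ z := by
    funext z
    by_cases hz : ‖z‖ < r + 1
    · rw [(dX_congr' (hin z hz)).eq_of_nhds, (dY_congr' (hin z hz)).eq_of_nhds]
      ring
    · have h4 : dX ψ z = 0 := by
        rw [(dX_congr' (hout z (not_lt.1 hz))).eq_of_nhds]
        unfold dX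
        simp
      have h5 : dY ψ z = 0 := by
        rw [(dY_congr' (hout z (not_lt.1 hz))).eq_of_nhds]
        unfold dY
        simp
      rw [h4, h5]
      ring
  rw [h2, h3] at h1
  linarith

theorem dX_add {f g : ℂ → ℝ} {z : ℂ} (hf : DifferentiableAt ℝ f z)
    (hg : DifferentiableAt ℝ g z) : dX (fun y => f y + g y) z = dX f z + dX g z := by
  unfold dX
  rw [fderiv_fun_add hf hg]
  rfl

theorem dY_add {f g : ℂ → ℝ} {z : ℂ} (hf : DifferentiableAt ℝ f z)
    (hg : DifferentiableAt ℝ g z) : dY (fun y => f y + g y) z = dY f z + dY g z := by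
  unfold dY
  rw [fderiv_fun_add hf hg]
  rfl

theorem dX_sub {f g : ℂ → ℝ} {z : ℂ} (hf : DifferentiableAt ℝ f z)
    (hg : DifferentiableAt ℝ g z) : dX (fun y => f y - g y) z = dX f z - dX g z := by
  unfold dX
  rw [fderiv_fun_sub hf hg]
  rfl

theorem dY_sub {f g : ℂ → ℝ} {z : ℂ} (hf : DifferentiableAt ℝ f z)
    (hg : DifferentiableAt ℝ g z) : dY (fun y => f y - g y) z = dY f z - dY g z := by
  unfold dY
  rw [fderiv_fun_sub hf hg]
  rfl

theorem dX_diffAt {f : ℂ → ℝ} {z : ℂ} (hf : ContDiffAt ℝ 2 f z) : DifferentiableAt ℝ (dX f) z := by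
  have h1 : ContDiffAt ℝ 1 (fderiv ℝ f) z := hf.fderiv_right (m := 1) (by norm_num)
  have h2 : DifferentiableAt ℝ (fderiv ℝ f) z := h1.differentiableAt (by norm_num)
  exact h2.clm_apply (differentiableAt_const (1 : ℂ))

theorem dY_diffAt {f : ℂ → ℝ} {z : ℂ} (hf : ContDiffAt ℝ 2 f z) : DifferentiableAt ℝ (dY f) z := by
  have h1 : ContDiffAt ℝ 1 (fderiv ℝ f) z := hf.fderiv_right (m := 1) (by norm_num)
  have h2 : DifferentiableAt ℝ (fderiv ℝ f) z := h1.differentiableAt (by norm_num)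
  exact h2.clm_apply (differentiableAt_const Complex.I)

theorem lap_add {f g : ℂ → ℝ} {z : ℂ} (hf : ContDiffAt ℝ 2 f z) (hg : ContDiffAt ℝ 2 g z) :
    lap (fun y => f y + g y) z = lap f z + lap g z := by
  have h1 : dX (fun y => f y + g y) =ᶠ[𝓝 z] fun y => dX f y + dX g y := by
    filter_upwards [hf.eventually (by simp), hg.eventually (by simp)] with y h1 h2
    exact dX_add (h1.differentiableAt (by norm_num)) (h2.differentiableAt (by norm_num))
  have h2 : dY (fun y => f y + g y) =ᶠ[𝓝 z] fun y => dY f y + dY g y := by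
    filter_upwards [hf.eventually (by simp), hg.eventually (by simp)] with y h1 h2
    exact dY_add (h1.differentiableAt (by norm_num)) (h2.differentiableAt (by norm_num))
  unfold lap
  rw [(dX_congr' h1).eq_of_nhds, (dY_congr' h2).eq_of_nhds,
    dX_add (dX_diffAt hf) (dX_diffAt hg), dY_add (dY_diffAt hf) (dY_diffAt hg)]
  ring

theorem ll_thm (hT : S_TRANS) (hG : S_GRN) (hM : S_MV) : S_LL := by
  intro P R v h hR hv hh ha hb hc
  have hhc : Continuous h := hh.continuous
  have hh1 : ContDiff ℝ 1 h := hh.of_le one_le_infty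
  have hh2 : ContDiff ℝ 2 h := hh.of_le two_le_infty
  have hvc : ∀ n, ContinuousOn (v n) (ball 0 R) := fun n => (hv n).continuousOn
  have key := ll0 hT hG hM P R (fun n z => v n z - h z) hR (fun n => (hv n).sub hh1.contDiffOn)
    (by
      intro R' hR' hR'R ε hε
      obtain ⟨N, hN⟩ := ha R' hR' hR'R ε hε
      refine ⟨N, fun n m hn hm => ?_⟩
      have : (fun z => v n z - h z - (v m z - h z)) = fun z => v n z - v m z := by
        funext z; ring
      rw [this]
      exact hN n m hn hm)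
    (by
      obtain ⟨r₁, l, h1, h2, h3⟩ := hb
      refine ⟨r₁, l - avg P.χ h 0 r₁, h1, h2, ?_⟩
      refine (h3.sub (tendsto_const_nhds (x := avg P.χ h 0 r₁))).congr (fun n => ?_)
      rw [avg_sub P h1.le ((hvc n).mono (cb_sub (by simpa using h2))) hhc.continuousOn])
    (by
      intro ψ hψ hψs
      obtain ⟨r, hr, hrR, hs⟩ := hψs
      have h1 := hc ψ hψ ⟨r, hr, hrR, hs⟩
      have h2 := green_sym hG hh hψ hr hs
      rw [← h2] at h1
      have h3 := h1.sub (tendsto_const_nhds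
        (x := ∫ z : ℂ, (dX h z * dX ψ z + dY h z * dY ψ z)))
      rw [sub_self] at h3
      refine h3.congr (fun n => ?_)
      have hψ1 : ContDiff ℝ 1 ψ := hψ.of_le one_le_infty
      -- supports
      have hψ0 : ∀ z : ℂ, r < ‖z‖ → dX ψ z = 0 ∧ dY ψ z = 0 := by
        intro z hz
        have h4 : ψ =ᶠ[𝓝 z] fun _ => 0 := by
          filter_upwards [(isOpen_lt continuous_const continuous_norm).mem_nhds hz] with y hy
          exact hs y (le_of_lt hy)
        refine ⟨?_, ?_⟩
        · rw [(dX_congr' h4).eq_of_nhds]; unfold dX; simp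
        · rw [(dY_congr' h4).eq_of_nhds]; unfold dY; simp
      have hcX : ∀ f : ℂ → ℝ, ContDiffOn ℝ 1 f (ball 0 R) →
          ContinuousOn (dX f) (ball 0 R) ∧ ContinuousOn (dY f) (ball 0 R) := by
        intro f hf
        have h5 : ContinuousOn (fderiv ℝ f) (ball 0 R) :=
          hf.continuousOn_fderiv_of_isOpen isOpen_ball le_rfl
        exact ⟨h5.clm_apply continuousOn_const, h5.clm_apply continuousOn_const⟩
      have hint : ∀ f : ℂ → ℝ, ContDiffOn ℝ 1 f (ball 0 R) →
          Integrable (fun z : ℂ => dX f z * dX ψ z + dY f z * dY ψ z) := by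
        intro f hf
        have h5 : (fun z : ℂ => dX f z * dX ψ z + dY f z * dY ψ z) =
            (closedBall (0 : ℂ) r).indicator (fun z : ℂ => dX f z * dX ψ z + dY f z * dY ψ z) := by
          funext z
          by_cases hz : z ∈ closedBall (0 : ℂ) r
          · rw [indicator_of_mem hz]
          · rw [indicator_of_notMem hz]
            rw [mem_closedBall, dist_zero_right, not_le] at hz
            rw [(hψ0 z hz).1, (hψ0 z hz).2]
            ring
        rw [h5, integrable_indicator_iff measurableSet_closedBall]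
        apply ContinuousOn.integrableOn_compact (isCompact_closedBall 0 r)
        have h6 := hcX f hf
        have h7 := hcX ψ hψ1.contDiffOn
        have h8 : closedBall (0 : ℂ) r ⊆ ball 0 R := closedBall_subset_ball hrR
        exact ((h6.1.mul h7.1).add (h6.2.mul h7.2)).mono h8
      rw [← integral_sub (hint (v n) (hv n)) (hint h hh1.contDiffOn)]
      apply integral_congr_ae
      filter_upwards with z
      by_cases hz : ‖z‖ ≤ r
      · have hzR : z ∈ ball (0 : ℂ) R := by simpa using lt_of_le_of_lt hz hrR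
        have hd1 : DifferentiableAt ℝ (v n) z :=
          ((hv n).contDiffAt (isOpen_ball.mem_nhds hzR)).differentiableAt (by norm_num)
        have hd2 : DifferentiableAt ℝ h z := hh1.contDiffAt.differentiableAt (by norm_num)
        show _ = dX (fun z => v n z - h z) z * dX ψ z + dY (fun z => v n z - h z) z * dY ψ z
        rw [dX_sub hd1 hd2, dY_sub hd1 hd2]
        ring
      · rw [(hψ0 z (not_le.1 hz)).1, (hψ0 z (not_le.1 hz)).2]
        ring)
  obtain ⟨g, hg1, hg2, hg3⟩ := key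
  refine ⟨fun z => g z + h z, hg1.add hh2.contDiffOn, ?_, ?_⟩
  · intro z hz
    rw [lap_add (hg1.contDiffAt (isOpen_ball.mem_nhds hz)) hh2.contDiffAt, hg2 z hz, zero_add]
  · intro z s hs hzs
    have h1 := hg3 z s hs hzs
    have h2 := h1.add (tendsto_const_nhds (x := avg P.χ h z s))
    rw [← avg_add P hs.le (hg1.continuousOn.mono (cb_sub hzs)) hhc.continuousOn] at h2
    refine h2.congr (fun n => ?_)
    rw [avg_sub P hs.le ((hvc n).mono (cb_sub hzs)) hhc.continuousOn]
    ring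

end Helper78.GL
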