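import Pool.Agent.Helper78.GL.AvgLib

set_option autoImplicit false

open MeasureTheory Metric Set Filter Topology

namespace Helper78.GL

open Pool.GL

theorem hasDerivAt_minsq (s : ℝ) : HasDerivAt (fun s : ℝ => (min s 0) ^ 2) (2 * min s 0) s := by
  rcases lt_trichotomy s 0 with h | h | h
  · have h1 : (fun s : ℝ => (min s 0) ^ 2) =ᶠ[𝓝 s] fun s => s ^ 2 := by
      filter_upwards [Iio_mem_nhds h] with t ht
      rw [min_eq_left (le_of_lt ht)]
    rw [min_eq_left h.le]
    have h2 := hasDerivAt_pow 2 s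
    refine (h2.congr_of_eventuallyEq h1).congr_deriv ?_
    norm_num
  · subst h
    rw [min_self, mul_zero, hasDerivAt_iff_isLittleO]
    have h1 : (fun x' : ℝ => (min x' 0) ^ 2 - (min (0 : ℝ) 0) ^ 2 - (x' - 0) • (0 : ℝ)) =O[𝓝 0]
        fun x' : ℝ => x' ^ 2 := by
      apply Asymptotics.IsBigO.of_bound 1
      filter_upwards with x
      rw [min_self]
      simp only [ne_eq, OfNat.ofNat_ne_zero, not_false_eq_true, zero_pow, sub_zero, smul_eq_mul,
        mul_zero, norm_pow, one_mul, Real.norm_eq_abs]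
      apply pow_le_pow_left₀ (abs_nonneg _)
      rcases le_total x 0 with hx | hx
      · rw [min_eq_left hx]
      · rw [min_eq_right hx, abs_zero]
        exact abs_nonneg x
    refine h1.trans_isLittleO ?_
    have h2 : (fun x : ℝ => x ^ 2) =o[𝓝 0] fun x : ℝ => x := by
      have := Asymptotics.isLittleO_pow_pow (𝕜 := ℝ) (m := 1) (n := 2) (by norm_num)
      simpa using this
    simpa using h2
  · have h1 : (fun s : ℝ => (min s 0) ^ 2) =ᶠ[𝓝 s] fun _ => (0 : ℝ) := by
      filter_upwards [Ioi_mem_nhds h] with t ht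
      rw [min_eq_right (le_of_lt ht)]
      norm_num
    rw [min_eq_right h.le, mul_zero]
    exact (hasDerivAt_const s (0 : ℝ)).congr_of_eventuallyEq h1

noncomputable def tau (s : ℝ) : ℝ := √(1 + (min s 0) ^ 2) - 1

theorem tau_hasDeriv (s : ℝ) : HasDerivAt tau (min s 0 / √(1 + (min s 0) ^ 2)) s := by
  have h1 := (hasDerivAt_minsq s).const_add 1
  have h2 := (h1.sqrt (by positivity)).sub_const 1
  refine h2.congr_deriv ?_
  have : 0 < √(1 + (min s 0) ^ 2) := Real.sqrt_pos.2 (by positivity)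
  field_simp

theorem tau_deriv (s : ℝ) : deriv tau s = min s 0 / √(1 + (min s 0) ^ 2) := (tau_hasDeriv s).deriv

theorem tau_contDiff : ContDiff ℝ 1 tau := by
  rw [contDiff_one_iff_deriv]
  refine ⟨fun s => (tau_hasDeriv s).differentiableAt, ?_⟩
  have : deriv tau = fun s => min s 0 / √(1 + (min s 0) ^ 2) := funext tau_deriv
  rw [this]
  apply Continuous.div
  · fun_prop
  · fun_prop
  · intro s
    exact (Real.sqrt_pos.2 (by positivity)).ne'

theorem tau_bd (s : ℝ) : -1 ≤ deriv tau s ∧ deriv tau s ≤ 0 := by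
  rw [tau_deriv]
  have hp : 0 < √(1 + (min s 0) ^ 2) := Real.sqrt_pos.2 (by positivity)
  have hm : min s 0 ≤ 0 := min_le_right _ _
  constructor
  · rw [le_div_iff₀ hp]
    have : |min s 0| ≤ √(1 + (min s 0) ^ 2) := by
      rw [← Real.sqrt_sq_eq_abs]
      exact Real.sqrt_le_sqrt (by linarith)
    rw [abs_of_nonpos hm] at this
    linarith
  · exact div_nonpos_of_nonpos_of_nonneg hm hp.le

theorem tau_zero : tau 0 = 0 := by
  unfold tau
  simp

theorem tau_nonneg (s : ℝ) : 0 ≤ tau s := by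
  unfold tau
  have : (1 : ℝ) ≤ √(1 + (min s 0) ^ 2) := by
    rw [Real.one_le_sqrt]
    nlinarith [sq_nonneg (min s 0)]
  linarith

theorem tau_ge (s : ℝ) : -s - 1 ≤ tau s := by
  unfold tau
  have : |min s 0| ≤ √(1 + (min s 0) ^ 2) := by
    rw [← Real.sqrt_sq_eq_abs]
    exact Real.sqrt_le_sqrt (by linarith)
  rw [abs_of_nonpos (min_le_right _ _)] at this
  have h2 := min_le_left s 0
  linarith

theorem Test_contOn {M : Type} (T : TS M) {v : M → ℝ} (hv : T.Test v) (p : M) {r : ℝ}
    (hr : r < T.rho p / 4) : ContinuousOn (fun z => v (T.Phi p z)) (closedBall 0 r) := by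
  refine (hv.1 p).continuousOn.mono ?_
  have := T.rho_pos p
  exact closedBall_subset_ball (by linarith)

theorem neg_thm (hC : S_COMP) (hCh : S_CHAIN) : S_NEG := by
  intro P M T _ μ p₀ r₀ v hμ hB hv p r hr hrp ε hε
  obtain ⟨hv1, hv2, hv3⟩ := hv
  obtain ⟨_, _, C, hCC⟩ := hCh P M T μ p₀ r₀ hμ hB p r hr hrp
  obtain ⟨N, hN⟩ := hv3 (ε / (|C| + 1)) (by positivity)
  refine ⟨N, fun n hn => ?_⟩
  obtain ⟨hw, hD⟩ := hC M T μ hμ tau tau_contDiff tau_zero tau_bd (v n) (hv1 n)
  set w : M → ℝ := fun x => tau (v n x) with hwdef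
  have h1 := hN n hn w hw
  have h2 : 0 ≤ base P T p₀ r₀ w := by
    unfold base
    apply avg_ge P hB.1.le (Test_contOn T hw p₀ hB.2.1)
    intro y _
    exact tau_nonneg _
  have h3 : 0 ≤ T.D μ w w := by
    unfold Pool.GL.TS.D
    apply integral_nonneg
    intro x
    show 0 ≤ T.dx w x * T.dx w x + T.dy w x * T.dy w x
    nlinarith [mul_self_nonneg (T.dx w x), mul_self_nonneg (T.dy w x)]
  have h4 : √(T.D μ w w) ≤ ε / (|C| + 1) := by
    set X := √(T.D μ w w) with hX
    have hX0 : 0 ≤ X := Real.sqrt_nonneg _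
    have hX2 : X ^ 2 = T.D μ w w := Real.sq_sqrt h3
    rw [abs_le] at h1
    have h5 : X ^ 2 ≤ ε / (|C| + 1) * X := by
      rw [hX2]
      linarith [h1.1]
    by_contra hcon
    push Not at hcon
    have : 0 < ε / (|C| + 1) := by positivity
    nlinarith
  have h5 := hCC w hw
  have h6 : base P T p r w ≤ ε := by
    calc base P T p r w ≤ |base P T p r w| := le_abs_self _
      _ ≤ C * √(T.D μ w w) := h5
      _ ≤ |C| * √(T.D μ w w) := mul_le_mul_of_nonneg_right (le_abs_self C) (Real.sqrt_nonneg _)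
      _ ≤ |C| * (ε / (|C| + 1)) := mul_le_mul_of_nonneg_left h4 (abs_nonneg C)
      _ ≤ (|C| + 1) * (ε / (|C| + 1)) := by
          apply mul_le_mul_of_nonneg_right (by linarith); positivity
      _ = ε := by field_simp
  have hcv := Test_contOn T (hv1 n) p hrp
  have hcw := Test_contOn T hw p hrp
  have h7 : avg P.χ (fun z => (-1 : ℝ) - w (T.Phi p z)) 0 r = -1 - base P T p r w := by
    rw [avg_sub P hr.le continuousOn_const hcw, avg_const]
    rfl
  have h8 : avg P.χ (fun z => (-1 : ℝ) - w (T.Phi p z)) 0 r ≤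
      avg P.χ (fun z => v n (T.Phi p z)) 0 r := by
    have h9 : 0 ≤ avg P.χ (fun z => v n (T.Phi p z) - ((-1 : ℝ) - w (T.Phi p z))) 0 r := by
      apply avg_ge P hr.le (hcv.sub (continuousOn_const.sub hcw))
      intro y _
      have := tau_ge (v n (T.Phi p y))
      show 0 ≤ v n (T.Phi p y) - (-1 - tau (v n (T.Phi p y)))
      linarith
    have h10 := avg_sub P (f := fun z => v n (T.Phi p z))
      (g := fun z => (-1 : ℝ) - w (T.Phi p z)) hr.le hcv (continuousOn_const.sub hcw)
    rw [h10] at h9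
    linarith
  linarith

end Helper78.GL
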