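import Pool.Agent.Helper78.GL.FINA
import Pool.Agent.Helper78.GL.LL
import Pool.Agent.Helper78.GL.NEG
import Pool.Agent.Helper10.GL.MIN
import Pool.Agent.Helper10.GL.SEQ
import Pool.Agent.Helper35.GL.MV
import Pool.Agent.Helper35.GL.TRANS
import Pool.Agent.Helper35.GL.TREE
import Pool.Agent.Helper51.GL.AREA
import Pool.Agent.Helper51.GL.COUNT
import Pool.Agent.Helper51.GL.GLUE
import Pool.Agent.Helper51.GL.GREEN
import Pool.Agent.Helper51.GL.INT
import Pool.Agent.Helper51.GL.LOCH
import Pool.Agent.Helper61.GL.BUMP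
import Pool.Agent.Helper61.GL.CHAIN
import Pool.Agent.Helper61.GL.TST
import Pool.Agent.Helper72.GL.A_CMP
import Pool.Agent.Helper79.GL.GRN
import Pool.Agent.Helper79.GL.PROF
import Pool.Agent.Helper79.GL.SUBM
import Pool.Agent.Helper79.GL.TSG

set_option autoImplicit false

/-!
Half A of the GL swarm: the potential-theoretic theorem `S_TREE_GOOD`.
-/

namespace Helper78.GL

open Pool.GL

theorem tree_good : S_TREE_GOOD := by
  have hTSA : S_TSA := Helper79.GL.tsa_thm
  have hTSB : S_TSB := Helper79.GL.tsb_thm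
  have hTSC : S_TSC := Helper79.GL.tsc_thm
  have hCNT : S_COUNT := Helper51.GL.count_thm hTSA hTSC
  have hAR : S_AREA := Helper51.GL.area_thm hTSB hCNT
  have hINT : S_INT := Helper51.GL.int_thm hTSB
  have hTST : S_TST := Pool.Agent.Helper61.GL.tst_thm hTSA hINT
  have hCOMP : S_COMP := Pool.Agent.Helper61.GL.comp_thm hTSA hINT
  have hBUMP : S_BUMP := Pool.Agent.Helper61.GL.bump_thm hTSA hINT
  have hTR : S_TRANS := Helper35.GL.trans_thm
  have hGRN : S_GRN := Helper79.GL.grn_thm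
  have hMV : S_MV := Helper35.GL.mv_thm hGRN
  have hLL : S_LL := ll_thm hTR hGRN hMV
  have hMIN : S_MIN := Pool.Agent.Helper10.GL.min_thm
  have hSEQ : S_SEQ := Pool.Agent.Helper10.GL.seq_thm hMIN hTST
  have hCH : S_CHAIN := Pool.Agent.Helper61.GL.chain_thm hTR hTST hTSC
  have hNEG : S_NEG := neg_thm hCOMP hCH
  have hLO : S_LOCH := Helper51.GL.loch_thm hTSB hBUMP
  have hGLUE : S_GLUE := Helper51.GL.glue_thm hSEQ hCH hNEG hLO hLL hTST hBUMP
  have hGR : S_GREEN := Helper51.GL.green_thm hGLUE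
  have hTREE : S_TREE := Helper35.GL.tree_thm hTSA hINT
  exact fina_thm hAR Helper79.GL.prof_thm hTREE hGR Helper79.GL.subm_thm Helper72.GL.cmp_thm

end Helper78.GL

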