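import Pool.Agent.Helper99.GL.FSpec

set_option autoImplicit false

open Metric Set Filter Topology

namespace Pool.GL.H78

theorem hom_eval {n m : ℕ} {φ : MvPolynomial (Fin m) ℂ} (hφ : φ.IsHomogeneous n) (c : ℂ)
    (z : Fin m → ℂ) : MvPolynomial.eval (c • z) φ = c ^ n * MvPolynomial.eval z φ := by
  rw [MvPolynomial.eval_eq', MvPolynomial.eval_eq', Finset.mul_sum]
  apply Finset.sum_congr rfl
  intro s hs
  have h1 : n = ∑ i ∈ s.support, s i := hφ.degree_eq_sum_deg_support hs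
  have h2 : ∑ i ∈ s.support, s i = ∑ i, s i := by
    apply Finset.sum_subset (Finset.subset_univ _)
    intro i _ hi
    simpa using hi
  simp only [Pi.smul_apply, smul_eq_mul, mul_pow, Finset.prod_mul_distrib,
    Finset.prod_pow_eq_pow_sum]
  rw [← h2, ← h1]
  ring

theorem zero_of_ode {f κ : ℂ → ℂ} {t₀ : ℂ} (hf : AnalyticAt ℂ f t₀) (h0 : f t₀ = 0)
    (hκ : ContinuousAt κ t₀) (h : ∀ᶠ t in 𝓝 t₀, deriv f t = κ t * f t) :
    ∀ᶠ t in 𝓝 t₀, f t = 0 := by
  by_contra hne
  obtain ⟨n, g, hg, hg0, hfg⟩ := (hf.exists_eventuallyEq_pow_smul_nonzero_iff).2 hne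
  rcases Nat.eq_zero_or_pos n with hn | hn
  · subst hn
    have := hfg.self_of_nhds
    rw [h0] at this
    simp at this
    exact hg0 this.symm
  obtain ⟨m, rfl⟩ : ∃ m, n = m + 1 := ⟨n - 1, by omega⟩
  have h1 : ∀ᶠ t in 𝓝 t₀, deriv f t = (m + 1 : ℂ) * (t - t₀) ^ m * g t +
      (t - t₀) ^ (m + 1) * deriv g t := by
    filter_upwards [hfg.eventually_nhds, hg.eventually_analyticAt] with t ht hgt
    have h2 : deriv f t = deriv (fun z => (z - t₀) ^ (m + 1) • g z) t :=
      Filter.EventuallyEq.deriv_eq ht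
    rw [h2]
    have h3 : HasDerivAt (fun z : ℂ => (z - t₀) ^ (m + 1)) ((m + 1 : ℂ) * (t - t₀) ^ m) t := by
      have h31 : HasDerivAt (fun z : ℂ => z - t₀) 1 t := (hasDerivAt_id t).sub_const t₀
      have h32 := h31.fun_pow (m + 1)
      simpa using h32
    have h4 := h3.mul hgt.differentiableAt.hasDerivAt
    exact h4.deriv
  have h5 : ∀ᶠ t in 𝓝[≠] t₀, κ t * ((t - t₀) * g t) = (m + 1 : ℂ) * g t + (t - t₀) * deriv g t := by
    have h6 : ∀ᶠ t in 𝓝 t₀, deriv f t = κ t * f t ∧ (deriv f t = (m + 1 : ℂ) * (t - t₀) ^ m * g t +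
      (t - t₀) ^ (m + 1) * deriv g t) ∧ f t = (t - t₀) ^ (m + 1) • g t := h.and (h1.and hfg)
    filter_upwards [h6.filter_mono nhdsWithin_le_nhds, self_mem_nhdsWithin] with t ht htn
    obtain ⟨ha, hb, hc⟩ := ht
    have hne' : (t - t₀) ^ m ≠ 0 := pow_ne_zero _ (sub_ne_zero.2 htn)
    apply mul_left_cancel₀ hne'
    rw [hc, smul_eq_mul] at ha
    rw [ha] at hb
    rw [pow_succ] at hb
    linear_combination hb
  have h7 : Tendsto (fun t => κ t * ((t - t₀) * g t)) (𝓝[≠] t₀) (𝓝 (κ t₀ * ((t₀ - t₀) * g t₀))) := by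
    apply Tendsto.mono_left _ nhdsWithin_le_nhds
    exact hκ.mul ((continuousAt_id.sub continuousAt_const).mul hg.continuousAt)
  have h8 : Tendsto (fun t => (m + 1 : ℂ) * g t + (t - t₀) * deriv g t) (𝓝[≠] t₀)
      (𝓝 ((m + 1 : ℂ) * g t₀ + (t₀ - t₀) * deriv g t₀)) := by
    apply Tendsto.mono_left _ nhdsWithin_le_nhds
    exact (continuousAt_const.mul hg.continuousAt).add
      ((continuousAt_id.sub continuousAt_const).mul hg.deriv.continuousAt)
  have h9 := tendsto_nhds_unique (h7.congr' h5) h8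
  rw [sub_self, zero_mul, mul_zero, zero_mul, add_zero] at h9
  have : (m + 1 : ℂ) ≠ 0 := by exact_mod_cast Nat.succ_ne_zero m
  exact (mul_ne_zero this hg0) h9.symm

theorem factor {G : MvPolynomial (Fin 3) ℂ}
    (h : ∀ z : Fin 3 → ℂ, z 0 = 0 → MvPolynomial.eval z G = 0) :
    ∃ G₀, G = MvPolynomial.X 0 * G₀ := by
  set g : Fin 3 → MvPolynomial (Fin 3) ℂ := fun i => if i = 0 then 0 else MvPolynomial.X i with hg
  have h1 : MvPolynomial.aeval g G = 0 := by
    apply MvPolynomial.funext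
    intro z
    rw [map_zero]
    have h2 : ∀ p : MvPolynomial (Fin 3) ℂ, MvPolynomial.eval z (MvPolynomial.aeval g p) =
        MvPolynomial.eval (fun i => if i = 0 then 0 else z i) p := by
      intro p
      induction p using MvPolynomial.induction_on with
      | C a => simp
      | add p q hp hq => rw [map_add, map_add, map_add, hp, hq]
      | mul_X p i hp =>
        rw [map_mul, map_mul, hp, map_mul, MvPolynomial.aeval_X, MvPolynomial.eval_X, hg]
        by_cases hi : i = 0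
        · simp [hi]
        · simp [hi]
    rw [h2]
    apply h
    simp
  have h3 : ∀ p : MvPolynomial (Fin 3) ℂ, ∃ r, p - MvPolynomial.aeval g p = MvPolynomial.X 0 * r := by
    intro p
    induction p using MvPolynomial.induction_on with
    | C a => exact ⟨0, by simp⟩
    | add p q hp hq =>
      obtain ⟨r, hr⟩ := hp
      obtain ⟨s, hs⟩ := hq
      refine ⟨r + s, ?_⟩
      rw [map_add]
      linear_combination hr + hs
    | mul_X p i hp =>
      obtain ⟨r, hr⟩ := hp
      rw [map_mul, MvPolynomial.aeval_X, hg]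
      by_cases hi : i = 0
      · refine ⟨p, ?_⟩
        subst hi
        simp
        ring
      · refine ⟨r * MvPolynomial.X i, ?_⟩
        simp only [hi, if_false]
        linear_combination hr * MvPolynomial.X i
  obtain ⟨r, hr⟩ := h3 G
  rw [h1, sub_zero] at hr
  exact ⟨r, hr⟩

/-- evaluation of polynomials is continuous -/
theorem eval_cont {m : ℕ} (p : MvPolynomial (Fin m) ℂ) :
    Continuous fun z : Fin m → ℂ => MvPolynomial.eval z p := MvPolynomial.continuous_eval p

theorem minor_ne {φ V : Fin 3 → ℂ} (h0 : φ ≠ 0) (h1 : ¬ ∃ c : ℂ, V = c • φ) :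
    ∃ i j, φ i * V j - φ j * V i ≠ 0 := by
  by_contra hcon
  push Not at hcon
  obtain ⟨k, hk⟩ := Function.ne_iff.1 h0
  apply h1
  refine ⟨V k / φ k, ?_⟩
  funext i
  have := hcon k i
  simp only [Pi.smul_apply, smul_eq_mul]
  have hk' : φ k ≠ 0 := hk
  field_simp
  linear_combination this

/-- in a tangent disc the zeroth coordinate vanishes nowhere or everywhere -/
theorem tan_zero (F : Fin 3 → MvPolynomial (Fin 3) ℂ) (V : (Fin 3 → ℂ) → (Fin 3 → ℂ))
    (hV : ∀ z i, V z i = MvPolynomial.eval z (F i))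
    (hinv : ∀ z : Fin 3 → ℂ, z 0 = 0 → V z 0 = 0) (φ : ℂ → Fin 3 → ℂ)
    (hd : DifferentiableOn ℂ φ (ball (0 : ℂ) 1))
    (ht : ∀ t ∈ ball (0 : ℂ) 1, φ t ≠ 0 ∧ (¬ ∃ c : ℂ, V (φ t) = c • φ t) ∧
      ∃ α β : ℂ, deriv φ t = α • φ t + β • V (φ t))
    (t₀ : ℂ) (ht₀ : t₀ ∈ ball (0 : ℂ) 1) (h0 : φ t₀ 0 = 0) :
    ∀ t ∈ ball (0 : ℂ) 1, φ t 0 = 0 := by
  obtain ⟨G₀, hG₀⟩ := factor (G := F 0) (fun z hz => by rw [← hV]; exact hinv z hz)
  have hdi : ∀ i, DifferentiableOn ℂ (fun t => φ t i) (ball (0 : ℂ) 1) := fun i t ht' =>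
    (differentiableWithinAt_pi.1 (hd t ht')) i
  have hder : ∀ i, ∀ t ∈ ball (0 : ℂ) 1, deriv (fun t => φ t i) t = deriv φ t i := by
    intro i t ht'
    have h1 : HasDerivAt φ (deriv φ t) t :=
      (hd.differentiableAt (isOpen_ball.mem_nhds ht')).hasDerivAt
    exact (hasDerivAt_pi.1 h1 i).deriv
  have hdc : ContinuousAt (deriv φ) t₀ :=
    ((hd.deriv isOpen_ball).continuousOn).continuousAt (isOpen_ball.mem_nhds ht₀)
  have hφc : ContinuousAt φ t₀ := (hd.continuousOn).continuousAt (isOpen_ball.mem_nhds ht₀)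
  have hVc : Continuous V := by
    apply continuous_pi
    intro i
    have : (fun z => V z i) = fun z => MvPolynomial.eval z (F i) := funext fun z => hV z i
    rw [this]
    exact eval_cont (F i)
  obtain ⟨h1, h2, _⟩ := ht t₀ ht₀
  obtain ⟨i, j, hij⟩ := minor_ne h1 h2
  set Dm : ℂ → ℂ := fun t => φ t i * V (φ t) j - φ t j * V (φ t) i with hDm
  have hci : ∀ k, ContinuousAt (fun t => φ t k) t₀ := fun k => (continuous_apply k).continuousAt.comp hφc
  have hcV : ∀ k, ContinuousAt (fun t => V (φ t) k) t₀ := fun k =>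
    ((continuous_apply k).comp hVc).continuousAt.comp hφc
  have hcd : ∀ k, ContinuousAt (fun t => deriv φ t k) t₀ := fun k =>
    (continuous_apply k).continuousAt.comp hdc
  have hDc : ContinuousAt Dm t₀ := ((hci i).mul (hcV j)).sub ((hci j).mul (hcV i))
  have hDne : ∀ᶠ t in 𝓝 t₀, Dm t ≠ 0 := hDc.eventually_ne hij
  set κ : ℂ → ℂ := fun t => (deriv φ t i * V (φ t) j - deriv φ t j * V (φ t) i) / Dm t +
    (φ t i * deriv φ t j - φ t j * deriv φ t i) / Dm t * MvPolynomial.eval (φ t) G₀ with hκ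
  have hκc : ContinuousAt κ t₀ := by
    apply ContinuousAt.add
    · exact (((hcd i).mul (hcV j)).sub ((hcd j).mul (hcV i))).div hDc hij
    · apply ContinuousAt.mul
      · exact (((hci i).mul (hcd j)).sub ((hci j).mul (hcd i))).div hDc hij
      · exact (eval_cont G₀).continuousAt.comp hφc
  have hev : ∀ᶠ t in 𝓝 t₀, deriv (fun t => φ t 0) t = κ t * φ t 0 := by
    filter_upwards [hDne, isOpen_ball.mem_nhds ht₀] with t htD htb
    obtain ⟨_, _, α, β, hαβ⟩ := ht t htb
    have e : ∀ k, deriv φ t k = α * φ t k + β * V (φ t) k := by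
      intro k
      rw [hαβ]
      simp
    have hα : (deriv φ t i * V (φ t) j - deriv φ t j * V (φ t) i) / Dm t = α := by
      rw [div_eq_iff htD, e i, e j]
      simp only [hDm]
      ring
    have hβ : (φ t i * deriv φ t j - φ t j * deriv φ t i) / Dm t = β := by
      rw [div_eq_iff htD, e i, e j]
      simp only [hDm]
      ring
    rw [hder 0 t htb, e 0]
    simp only [hκ]
    rw [hα, hβ, hV (φ t) 0, hG₀, map_mul, MvPolynomial.eval_X]
    ring
  have han : AnalyticOnNhd ℂ (fun t => φ t 0) (ball (0 : ℂ) 1) :=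
    (hdi 0).analyticOnNhd isOpen_ball
  have hz := zero_of_ode (han t₀ ht₀) h0 hκc hev
  exact han.eqOn_zero_of_preconnected_of_eventuallyEq_zero
    (convex_ball _ _).isPreconnected ht₀ hz

theorem hasDerivAt_fst_of {f : ℂ → ℂ × ℂ} {f' : ℂ × ℂ} {t : ℂ} (h : HasDerivAt f f' t) :
    HasDerivAt (fun t => (f t).1) f'.1 t := by
  have := (ContinuousLinearMap.fst ℂ ℂ ℂ).hasFDerivAt.comp_hasDerivAt t h
  exact this

theorem hasDerivAt_snd_of {f : ℂ → ℂ × ℂ} {f' : ℂ × ℂ} {t : ℂ} (h : HasDerivAt f f' t) :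
    HasDerivAt (fun t => (f t).2) f'.2 t := by
  have := (ContinuousLinearMap.snd ℂ ℂ ℂ).hasFDerivAt.comp_hasDerivAt t h
  exact this

noncomputable def aff3 (q : Fin 3 → ℂ) : ℂ × ℂ := (q 1 / q 0, q 2 / q 0)

noncomputable def emb (x : ℂ × ℂ) : Fin 3 → ℂ := ![1, x.1, x.2]

theorem aff3_smul (c : ℂ) (hc : c ≠ 0) (q : Fin 3 → ℂ) : aff3 (c • q) = aff3 q := by
  unfold aff3
  simp only [Pi.smul_apply, smul_eq_mul]
  rw [mul_div_mul_left _ _ hc, mul_div_mul_left _ _ hc]

theorem aff3_emb (x : ℂ × ℂ) : aff3 (emb x) = x := by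
  unfold aff3 emb
  simp

theorem emb_aff3 (q : Fin 3 → ℂ) (h : q 0 ≠ 0) : q = q 0 • emb (aff3 q) := by
  funext i
  fin_cases i
  · simp [emb]
  · simp only [emb, aff3, Pi.smul_apply, smul_eq_mul]
    show q 1 = q 0 * (q 1 / q 0)
    field_simp
  · simp only [emb, aff3, Pi.smul_apply, smul_eq_mul]
    show q 2 = q 0 * (q 2 / q 0)
    field_simp

theorem eval_aeval_emb (x : ℂ × ℂ) (p : MvPolynomial (Fin 3) ℂ) :
    MvPolynomial.eval ![x.1, x.2] (MvPolynomial.aeval ![(1 : MvPolynomial (Fin 2) ℂ),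
      MvPolynomial.X 0, MvPolynomial.X 1] p) = MvPolynomial.eval (emb x) p := by
  induction p using MvPolynomial.induction_on with
  | C a => simp
  | add p q hp hq => rw [map_add, map_add, map_add, hp, hq]
  | mul_X p i hp =>
    rw [map_mul, map_mul, hp, map_mul, MvPolynomial.aeval_X, MvPolynomial.eval_X]
    fin_cases i
    · simp [emb]
    · simp [emb]
    · simp [emb]

theorem affFld_W (d : ℕ) (F : Fin 3 → MvPolynomial (Fin 3) ℂ) (x : ℂ × ℂ) :
    (affFld d F).W x = (MvPolynomial.eval (emb x) (F 1) - x.1 * MvPolynomial.eval (emb x) (F 0),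
      MvPolynomial.eval (emb x) (F 2) - x.2 * MvPolynomial.eval (emb x) (F 0)) := by
  unfold Fld.W affFld
  simp only [map_sub, map_mul, eval_aeval_emb, MvPolynomial.eval_X]
  simp

/-- homogenisation -/
theorem homog (R : MvPolynomial (Fin 2) ℂ) (hR : R ≠ 0) :
    ∃ (k : ℕ) (P : MvPolynomial (Fin 3) ℂ), 0 < k ∧ P.IsHomogeneous k ∧ P ≠ 0 ∧
      ∀ q : Fin 3 → ℂ, q 0 ≠ 0 →
        MvPolynomial.eval q P = q 0 ^ k * MvPolynomial.eval ![(aff3 q).1, (aff3 q).2] R := by
  set N := R.totalDegree + 1 with hN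
  set P : MvPolynomial (Fin 3) ℂ := ∑ k ∈ Finset.range (R.totalDegree + 1),
    MvPolynomial.X 0 ^ (N - k) * MvPolynomial.rename Fin.succ (MvPolynomial.homogeneousComponent k R)
    with hP
  have hev : ∀ q : Fin 3 → ℂ, q 0 ≠ 0 →
      MvPolynomial.eval q P = q 0 ^ N * MvPolynomial.eval ![(aff3 q).1, (aff3 q).2] R := by
    intro q hq
    conv_rhs => rw [← MvPolynomial.sum_homogeneousComponent R]
    rw [hP, map_sum, map_sum, Finset.mul_sum]
    apply Finset.sum_congr rfl
    intro k hk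
    rw [Finset.mem_range] at hk
    rw [map_mul, map_pow, MvPolynomial.eval_X, MvPolynomial.eval_rename]
    have h1 : (q ∘ Fin.succ : Fin 2 → ℂ) = q 0 • ![(aff3 q).1, (aff3 q).2] := by
      funext i
      fin_cases i
      · simp only [aff3, Function.comp, Pi.smul_apply, smul_eq_mul]
        show q 1 = q 0 * (q 1 / q 0)
        field_simp
      · simp only [aff3, Function.comp, Pi.smul_apply, smul_eq_mul]
        show q 2 = q 0 * (q 2 / q 0)
        field_simp
    rw [h1, hom_eval (MvPolynomial.homogeneousComponent_isHomogeneous k R)]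
    rw [← mul_assoc, ← pow_add]
    congr 2
    omega
  refine ⟨N, P, by omega, ?_, ?_, hev⟩
  · apply MvPolynomial.IsHomogeneous.sum
    intro k hk
    rw [Finset.mem_range] at hk
    have h1 := (MvPolynomial.isHomogeneous_X_pow (R := ℂ) (0 : Fin 3) (N - k)).mul
      (MvPolynomial.IsHomogeneous.rename_isHomogeneous (f := Fin.succ)
        (MvPolynomial.homogeneousComponent_isHomogeneous k R))
    have h2 : N - k + k = N := by omega
    rwa [h2] at h1
  · intro h0
    apply hR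
    apply MvPolynomial.funext
    intro y
    rw [map_zero]
    have h1 := hev (emb (y 0, y 1)) (by simp [emb])
    rw [h0, map_zero, aff3_emb] at h1
    have h2 : (emb (y 0, y 1)) 0 = 1 := by simp [emb]
    rw [h2, one_pow, one_mul] at h1
    have h3 : (![(y 0, y 1).1, (y 0, y 1).2] : Fin 2 → ℂ) = y := by
      funext i
      fin_cases i <;> simp
    rw [h3] at h1
    exact h1.symm

theorem redg (hC : S_CURVE) (hU : S_UNIQC) : S_REDG := by
  intro hAFF hREDA d F hns
  intro hd hhom V hV Sing hSing _hfin hinv hhyp Tan hTan L p hp0 hpS hL halg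
  have hgood : (affFld d F).Good := by
    apply hREDA d F hd hhom (fun z hz => by rw [← hV]; exact hinv z hz) _ hns
    intro a c ha hac
    exact hhyp a c ha (by funext i; rw [hV, hac i]; simp)
  -- basic facts
  have hVemb : ∀ x : ℂ × ℂ, (affFld d F).W x =
      (V (emb x) 1 - x.1 * V (emb x) 0, V (emb x) 2 - x.2 * V (emb x) 0) := by
    intro x
    rw [affFld_W, hV, hV, hV]
  have hVhom : ∀ (c : ℂ) (z : Fin 3 → ℂ), V (c • z) = c ^ d • V z := by
    intro c z
    funext i
    rw [hV, hom_eval (hhom i), Pi.smul_apply, smul_eq_mul, hV]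
  have hVhom' : ∀ z : Fin 3 → ℂ, z 0 ≠ 0 → ∀ i, V z i = z 0 ^ d * V (emb (aff3 z)) i := by
    intro z hz i
    conv_lhs => rw [emb_aff3 z hz]
    rw [hVhom, Pi.smul_apply, smul_eq_mul]
  -- nonsingular points have nonzero affine field
  have hWne : ∀ z : Fin 3 → ℂ, z 0 ≠ 0 → ¬ Sing z → (affFld d F).W (aff3 z) ≠ 0 := by
    intro z hz hzS hW
    apply hzS
    rw [hSing]
    refine ⟨fun h => hz (by rw [h]; rfl), z 0 ^ (d - 1) * V (emb (aff3 z)) 0, ?_⟩
    rw [hVemb] at hW
    have h1 : V (emb (aff3 z)) 1 = (aff3 z).1 * V (emb (aff3 z)) 0 :=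
      sub_eq_zero.1 (congrArg Prod.fst hW)
    have h2 : V (emb (aff3 z)) 2 = (aff3 z).2 * V (emb (aff3 z)) 0 :=
      sub_eq_zero.1 (congrArg Prod.snd hW)
    obtain ⟨e, rfl⟩ : ∃ e, d = e + 1 := ⟨d - 1, by omega⟩
    funext i
    rw [hVhom' z hz i, Pi.smul_apply, smul_eq_mul]
    fin_cases i
    · show z 0 ^ (e + 1) * V (emb (aff3 z)) 0 = z 0 ^ e * V (emb (aff3 z)) 0 * z 0
      ring
    · show z 0 ^ (e + 1) * V (emb (aff3 z)) 1 = z 0 ^ e * V (emb (aff3 z)) 0 * z 1
      rw [h1]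
      simp only [aff3]
      field_simp
      ring
    · show z 0 ^ (e + 1) * V (emb (aff3 z)) 2 = z 0 ^ e * V (emb (aff3 z)) 0 * z 2
      rw [h2]
      simp only [aff3]
      field_simp
      ring
  have hSingW : ∀ x : ℂ × ℂ, (affFld d F).W x ≠ 0 → ¬ Sing (emb x) := by
    intro x hx hS
    rw [hSing] at hS
    obtain ⟨_, c, hc⟩ := hS
    apply hx
    rw [hVemb, hc]
    simp [emb]
    constructor <;> ring
  -- tangent discs
  have htz : ∀ φ, Tan φ → ∀ t₀ ∈ ball (0 : ℂ) 1, φ t₀ 0 = 0 → ∀ t ∈ ball (0 : ℂ) 1, φ t 0 = 0 := by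
    intro φ hφ t₀ ht₀ h0
    rw [hTan] at hφ
    apply tan_zero F V hV hinv φ hφ.1 _ t₀ ht₀ h0
    intro t ht
    obtain ⟨h1, h2, h3⟩ := hφ.2 t ht
    exact ⟨h1, fun hc => h2 ((hSing _).2 ⟨h1, hc⟩), h3⟩
  have hSmul0 : ∀ q : Fin 3 → ℂ, ∀ c : ℂ, (c • q) 0 = c * q 0 := fun q c => rfl
  have hxv : ∀ q r : Fin 3 → ℂ, (∃ φ, Tan φ ∧ ∃ s ∈ Metric.ball (0 : ℂ) 1,
      ∃ t ∈ Metric.ball (0 : ℂ) 1, ∃ a b : ℂ, φ s = a • q ∧ φ t = b • r) → q 0 ≠ 0 → r 0 ≠ 0 := by
    rintro q r ⟨φ, hφ, s, hs, t, ht, a, b, h1, h2⟩ hq hr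
    have h3 : φ t 0 = 0 := by rw [h2, hSmul0, hr, mul_zero]
    have h4 := htz φ hφ t ht h3 s hs
    rw [h1, hSmul0] at h4
    have ha : a = 0 := (mul_eq_zero.1 h4).resolve_right hq
    have h5 := (((hTan φ).1 hφ).2 s hs).1
    rw [h1, ha, zero_smul] at h5
    exact h5 rfl
  have hxz : ∀ q r : Fin 3 → ℂ, (∃ φ, Tan φ ∧ ∃ s ∈ Metric.ball (0 : ℂ) 1,
      ∃ t ∈ Metric.ball (0 : ℂ) 1, ∃ a b : ℂ, φ s = a • q ∧ φ t = b • r) → q 0 = 0 → r 0 = 0 := by
    rintro q r ⟨φ, hφ, s, hs, t, ht, a, b, h1, h2⟩ hq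
    have h3 : φ s 0 = 0 := by rw [h1, hSmul0, hq, mul_zero]
    have h4 := htz φ hφ s hs h3 t ht
    rw [h2, hSmul0] at h4
    rcases mul_eq_zero.1 h4 with hb | hr
    · have h5 := (((hTan φ).1 hφ).2 t ht).1
      rw [h2, hb, zero_smul] at h5
      exact absurd rfl h5
    · exact hr
  have hp00 : p 0 ≠ 0 := by
    intro h0
    apply halg
    refine ⟨1, MvPolynomial.X 0, one_pos, MvPolynomial.isHomogeneous_X _ _,
      MvPolynomial.X_ne_zero _, ?_⟩
    intro q hq
    rw [MvPolynomial.eval_X]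
    rw [hL] at hq
    induction hq with
    | refl => exact h0
    | tail _ h ih => exact hxz _ _ h ih
  have hLne : ∀ q, L q → q 0 ≠ 0 := by
    intro q hq
    rw [hL] at hq
    induction hq with
    | refl => exact hp00
    | tail _ h ih => exact hxv _ _ h ih
  -- tangent discs project to tangent discs
  have hproj : ∀ φ, Tan φ → (∀ t ∈ ball (0 : ℂ) 1, φ t 0 ≠ 0) →
      (affFld d F).TanD (fun t => aff3 (φ t)) ∧
      ∃ b : ℂ → ℂ, ContinuousOn b (ball (0 : ℂ) 1) ∧ ∀ t ∈ ball (0 : ℂ) 1,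
        HasDerivAt (fun t => aff3 (φ t)) (b t • (affFld d F).W (aff3 (φ t))) t := by
    intro φ hφ hne
    have hφ' := (hTan φ).1 hφ
    have hdi : ∀ i, ∀ t ∈ ball (0 : ℂ) 1, HasDerivAt (fun t => φ t i) (deriv φ t i) t := by
      intro i t ht
      have h1 : HasDerivAt φ (deriv φ t) t :=
        (hφ'.1.differentiableAt (isOpen_ball.mem_nhds ht)).hasDerivAt
      exact hasDerivAt_pi.1 h1 i
    have hder : ∀ t ∈ ball (0 : ℂ) 1, ∀ β α : ℂ, deriv φ t = α • φ t + β • V (φ t) →
        HasDerivAt (fun t => aff3 (φ t)) ((β * φ t 0 ^ (d - 1)) • (affFld d F).W (aff3 (φ t))) t := by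
      intro t ht β α hαβ
      have h0 := hne t ht
      have e : ∀ k, deriv φ t k = α * φ t k + β * V (φ t) k := by
        intro k
        rw [hαβ]
        simp
      obtain ⟨e', he'⟩ : ∃ e', d = e' + 1 := ⟨d - 1, by omega⟩
      have h1 := (hdi 1 t ht).div (hdi 0 t ht) h0
      have h2 := (hdi 2 t ht).div (hdi 0 t ht) h0
      have h3 : HasDerivAt (fun t => aff3 (φ t))
          ((deriv φ t 1 * φ t 0 - φ t 1 * deriv φ t 0) / φ t 0 ^ 2,
            (deriv φ t 2 * φ t 0 - φ t 2 * deriv φ t 0) / φ t 0 ^ 2) t := h1.prodMk h2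
      refine h3.congr_deriv ?_
      rw [hVemb]
      have hv0 := hVhom' (φ t) h0 0
      have hv1 := hVhom' (φ t) h0 1
      have hv2 := hVhom' (φ t) h0 2
      rw [e 0, e 1, e 2, hv0, hv1, hv2, he', Nat.add_sub_cancel]
      rw [Prod.smul_mk]
      simp only [smul_eq_mul, aff3]
      rw [Prod.mk.injEq]
      constructor
      · field_simp
        ring
      · field_simp
        ring
    have hdif : DifferentiableOn ℂ (fun t => aff3 (φ t)) (ball (0 : ℂ) 1) := by
      intro t ht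
      obtain ⟨_, _, α, β, hαβ⟩ := hφ'.2 t ht
      exact (hder t ht β α hαβ).differentiableAt.differentiableWithinAt
    have hWc : ∀ t ∈ ball (0 : ℂ) 1, (affFld d F).W (aff3 (φ t)) ≠ 0 := fun t ht =>
      hWne _ (hne t ht) (hφ'.2 t ht).2.1
    refine ⟨⟨hdif, fun t ht => ⟨hWc t ht, ?_⟩⟩, ?_⟩
    · obtain ⟨_, _, α, β, hαβ⟩ := hφ'.2 t ht
      exact ⟨_, (hder t ht β α hαβ).deriv⟩
    · -- continuity of the coefficient
      choose! α β hαβ using fun t ht => (hφ'.2 t ht).2.2
      refine ⟨fun t => β t * φ t 0 ^ (d - 1), ?_, fun t ht => hder t ht (β t) (α t) (hαβ t ht)⟩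
      set b : ℂ → ℂ := fun t => β t * φ t 0 ^ (d - 1) with hb
      intro t₀ ht₀
      have hWcont : Continuous (affFld d F).W := by
        have h1 : ∀ q : MvPolynomial (Fin 2) ℂ,
            Continuous fun x : ℂ × ℂ => MvPolynomial.eval ![x.1, x.2] q := by
          intro q
          apply (eval_cont q).comp
          apply continuous_pi
          intro i
          fin_cases i
          · exact continuous_fst
          · exact continuous_snd
        exact (h1 _).prodMk (h1 _)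
      have hcc : ContinuousAt (fun t => aff3 (φ t)) t₀ :=
        hdif.continuousOn.continuousAt (isOpen_ball.mem_nhds ht₀)
      have hdc : ContinuousAt (deriv (fun t => aff3 (φ t))) t₀ :=
        (hdif.deriv isOpen_ball).continuousOn.continuousAt (isOpen_ball.mem_nhds ht₀)
      have hWcc : ContinuousAt (fun t => (affFld d F).W (aff3 (φ t))) t₀ :=
        hWcont.continuousAt.comp hcc
      have hdb : ∀ t ∈ ball (0 : ℂ) 1, deriv (fun t => aff3 (φ t)) t =
          b t • (affFld d F).W (aff3 (φ t)) := fun t ht => (hder t ht (β t) (α t) (hαβ t ht)).deriv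
      have hne0 := hWc t₀ ht₀
      apply ContinuousAt.continuousWithinAt
      by_cases hfst : ((affFld d F).W (aff3 (φ t₀))).1 = 0
      · have hsnd : ((affFld d F).W (aff3 (φ t₀))).2 ≠ 0 := by
          intro h
          exact hne0 (Prod.ext hfst h)
        have hc2 : ContinuousAt (fun t => ((affFld d F).W (aff3 (φ t))).2) t₀ :=
          continuous_snd.continuousAt.comp hWcc
        have hd2 : ContinuousAt (fun t => (deriv (fun t => aff3 (φ t)) t).2) t₀ :=
          continuous_snd.continuousAt.comp hdc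
        refine ContinuousAt.congr (hd2.div hc2 hsnd) ?_
        filter_upwards [hc2.eventually_ne hsnd, isOpen_ball.mem_nhds ht₀] with t h1 h2
        show (deriv (fun t => aff3 (φ t)) t).2 / ((affFld d F).W (aff3 (φ t))).2 = b t
        rw [hdb t h2, Prod.smul_snd, smul_eq_mul, mul_div_assoc, div_self h1, mul_one]
      · have hc2 : ContinuousAt (fun t => ((affFld d F).W (aff3 (φ t))).1) t₀ :=
          continuous_fst.continuousAt.comp hWcc
        have hd2 : ContinuousAt (fun t => (deriv (fun t => aff3 (φ t)) t).1) t₀ :=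
          continuous_fst.continuousAt.comp hdc
        refine ContinuousAt.congr (hd2.div hc2 hfst) ?_
        filter_upwards [hc2.eventually_ne hfst, isOpen_ball.mem_nhds ht₀] with t h1 h2
        show (deriv (fun t => aff3 (φ t)) t).1 / ((affFld d F).W (aff3 (φ t))).1 = b t
        rw [hdb t h2, Prod.smul_fst, smul_eq_mul, mul_div_assoc, div_self h1, mul_one]
  -- points of `L` project to the leaf
  have hstep : ∀ q r : Fin 3 → ℂ, q 0 ≠ 0 → (∃ φ, Tan φ ∧ ∃ s ∈ Metric.ball (0 : ℂ) 1,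
      ∃ t ∈ Metric.ball (0 : ℂ) 1, ∃ a b : ℂ, φ s = a • q ∧ φ t = b • r) →
      (affFld d F).Lf (aff3 q) (aff3 r) := by
    rintro q r hq ⟨φ, hφ, s, hs, t, ht, a, b, h1, h2⟩
    have ha : a ≠ 0 := by
      intro ha
      have h5 := (((hTan φ).1 hφ).2 s hs).1
      rw [h1, ha, zero_smul] at h5
      exact h5 rfl
    have hb : b ≠ 0 := by
      intro hb
      have h5 := (((hTan φ).1 hφ).2 t ht).1
      rw [h2, hb, zero_smul] at h5
      exact h5 rfl
    have hne : ∀ τ ∈ ball (0 : ℂ) 1, φ τ 0 ≠ 0 := by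
      intro τ hτ h0
      have h4 := htz φ hφ τ hτ h0 s hs
      rw [h1, hSmul0] at h4
      exact (mul_ne_zero ha hq) h4
    obtain ⟨_, bb, hbc, hbd⟩ := hproj φ hφ hne
    have hmem : ∀ τ ∈ Icc (0 : ℝ) 1, s + (τ : ℂ) * (t - s) ∈ ball (0 : ℂ) 1 := by
      intro τ hτ
      have := (convex_ball (0 : ℂ) 1).add_smul_sub_mem hs ht hτ
      simpa [Complex.real_smul] using this
    have hc := hC (affFld d F) (fun τ : ℝ => aff3 (φ (s + (τ : ℂ) * (t - s))))
      (fun τ => (t - s) * bb (s + (τ : ℂ) * (t - s))) 1 zero_le_one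
      (by
        apply ContinuousOn.mul continuousOn_const
        apply hbc.comp (by fun_prop)
        intro τ hτ
        exact hmem τ hτ)
      (by
        intro τ hτ
        apply HasDerivAt.hasDerivWithinAt
        have h3 := hbd _ (hmem τ hτ)
        have h4 : HasDerivAt (fun τ : ℝ => s + (τ : ℂ) * (t - s)) (t - s) τ := by
          have h5 : HasDerivAt (fun τ : ℝ => (τ : ℂ)) 1 τ := Complex.ofRealCLM.hasDerivAt
          have h6 := (h5.mul_const (t - s)).const_add s
          rwa [one_mul] at h6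
        have h5 := HasDerivAt.scomp τ h3 h4
        rw [smul_smul] at h5
        exact h5)
    have e0 : aff3 (φ (s + ((0 : ℝ) : ℂ) * (t - s))) = aff3 q := by
      rw [Complex.ofReal_zero, zero_mul, add_zero, h1, aff3_smul a ha]
    have e1 : aff3 (φ (s + ((1 : ℝ) : ℂ) * (t - s))) = aff3 r := by
      rw [Complex.ofReal_one, one_mul, add_sub_cancel, h2, aff3_smul b hb]
    have hc' : (affFld d F).Lf (aff3 (φ (s + ((0 : ℝ) : ℂ) * (t - s))))
        (aff3 (φ (s + ((1 : ℝ) : ℂ) * (t - s)))) := hc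
    rw [e0, e1] at hc'
    exact hc'
  have hLA : ∀ q, L q → (affFld d F).Lf (aff3 p) (aff3 q) := by
    intro q hq
    have hq' := hq
    rw [hL] at hq'
    clear hq
    induction hq' with
    | refl => exact Relation.ReflTransGen.refl
    | tail h1 h2 ih =>
      exact ih.trans (hstep _ _ (hLne _ ((hL _).2 h1)) h2)
  -- scaling
  have hscale : ∀ q, ¬ Sing q → q ≠ 0 → ∀ c : ℂ, c ≠ 0 → (∃ φ, Tan φ ∧ ∃ s ∈ Metric.ball (0 : ℂ) 1,
      ∃ t ∈ Metric.ball (0 : ℂ) 1, ∃ a b : ℂ, φ s = a • q ∧ φ t = b • (c • q)) := by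
    intro q hq hq0 c hc
    refine ⟨fun _ => q, ?_, 0, mem_ball_self one_pos, 0, mem_ball_self one_pos, 1, c⁻¹, ?_, ?_⟩
    · rw [hTan]
      refine ⟨differentiableOn_const _, fun t _ => ⟨hq0, hq, 0, 0, ?_⟩⟩
      simp
    · simp
    · rw [smul_smul, inv_mul_cancel₀ hc, one_smul]
  have hW0 : (affFld d F).W (aff3 p) ≠ 0 := hWne p hp00 hpS
  have hWdiff : ContDiffOn ℂ 1 (affFld d F).W univ := by
    have h1 : ∀ q : MvPolynomial (Fin 2) ℂ,
        ContDiff ℂ 1 fun x : ℂ × ℂ => MvPolynomial.eval ![x.1, x.2] q := by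
      intro q
      induction q using MvPolynomial.induction_on with
      | C a => simpa using contDiff_const
      | add p q hp hq => simpa using hp.add hq
      | mul_X p i hp =>
        have h2 : ContDiff ℂ 1 fun x : ℂ × ℂ => (![x.1, x.2] : Fin 2 → ℂ) i := by
          fin_cases i
          · exact contDiff_fst
          · exact contDiff_snd
        simpa using hp.mul h2
    exact ((h1 _).prodMk (h1 _)).contDiffOn
  -- points of the leaf lift
  have hlift : ∀ x, (affFld d F).Lf (aff3 p) x → (affFld d F).W x ≠ 0 ∧ L (emb x) := by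
    intro x hx
    induction hx with
    | refl =>
      refine ⟨hW0, ?_⟩
      rw [hL]
      apply Relation.ReflTransGen.single
      have h1 := hscale p hpS hp0 (p 0)⁻¹ (inv_ne_zero hp00)
      have h2 : (p 0)⁻¹ • p = emb (aff3 p) := by
        conv_lhs => rw [emb_aff3 p hp00]
        rw [smul_smul]
        have : (p 0)⁻¹ * (p 0 • emb (aff3 p)) 0 = 1 := by
          rw [← emb_aff3 p hp00]
          exact inv_mul_cancel₀ hp00
        simp only [Pi.smul_apply, smul_eq_mul, emb] at this ⊢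
        simp [hp00]
      rwa [h2] at h1
    | tail _ h ih =>
      rename_i y x _
      obtain ⟨hWy, hLy⟩ := ih
      obtain ⟨ψ, r, hr, hψ, hψ0, t, ht, hψt⟩ := h
      have hWall : ∀ τ ∈ ball (0 : ℂ) r, (affFld d F).W (ψ τ) ≠ 0 := by
        intro τ hτ h0
        have h1 := hU univ (affFld d F).W isOpen_univ hWdiff (ball (0 : ℂ) r) isOpen_ball
          (convex_ball _ _).isPreconnected ψ (fun _ => ψ τ)
          (fun s hs => ⟨mem_univ _, mem_univ _, hψ s hs, by
            rw [h0]; exact hasDerivAt_const _ _⟩) τ hτ rfl 0 (mem_ball_self hr)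
        rw [hψ0] at h1
        apply hWy
        rw [h1]
        exact h0
      refine ⟨by rw [← hψt]; exact hWall t ht, ?_⟩
      rw [hL] at hLy ⊢
      refine hLy.tail ?_
      have hrt : ∀ τ ∈ ball (0 : ℂ) 1, (r : ℂ) * τ ∈ ball (0 : ℂ) r := by
        intro τ hτ
        rw [mem_ball, dist_zero_right] at hτ ⊢
        rw [norm_mul, Complex.norm_real, Real.norm_eq_abs, abs_of_pos hr]
        nlinarith
      have hder : ∀ τ ∈ ball (0 : ℂ) 1, HasDerivAt (fun τ : ℂ => emb (ψ ((r : ℂ) * τ)))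
          ((-((r : ℂ) * V (emb (ψ ((r : ℂ) * τ))) 0)) • emb (ψ ((r : ℂ) * τ)) +
            (r : ℂ) • V (emb (ψ ((r : ℂ) * τ)))) τ := by
        intro τ hτ
        have h1 := hψ _ (hrt τ hτ)
        have h2 : HasDerivAt (fun τ : ℂ => (r : ℂ) * τ) (r : ℂ) τ := by
          simpa using (hasDerivAt_id τ).const_mul (r : ℂ)
        have h3 := HasDerivAt.scomp τ h1 h2
        have h3a := hasDerivAt_fst_of h3
        have h3b := hasDerivAt_snd_of h3
        rw [hasDerivAt_pi]
        intro i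
        rw [hVemb] at h3a h3b
        fin_cases i
        · simp only [emb, Pi.add_apply, Pi.smul_apply, smul_eq_mul]
          refine (hasDerivAt_const τ (1 : ℂ)).congr_deriv ?_
          simp
        · refine (h3a.congr_deriv ?_)
          simp [emb]
          ring
        · refine (h3b.congr_deriv ?_)
          simp [emb]
          ring
      have hr0 : (r : ℂ) ≠ 0 := by exact_mod_cast hr.ne'
      refine ⟨fun τ => emb (ψ ((r : ℂ) * τ)), ?_, 0, mem_ball_self one_pos, t / r, ?_, 1, 1, ?_, ?_⟩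
      · rw [hTan]
        refine ⟨fun τ hτ => (hder τ hτ).differentiableAt.differentiableWithinAt, ?_⟩
        intro τ hτ
        refine ⟨?_, hSingW _ (hWall _ (hrt τ hτ)), _, _, (hder τ hτ).deriv⟩
        intro h
        have := congrFun h 0
        simp [emb] at this
      · rw [mem_ball, dist_zero_right] at ht ⊢
        rw [norm_div, Complex.norm_real, Real.norm_eq_abs, abs_of_pos hr, div_lt_one hr]
        exact ht
      · simp [hψ0]
      · rw [one_smul]
        show emb (ψ ((r : ℂ) * (t / r))) = emb x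
        rw [mul_div_cancel₀ _ hr0, hψt]
  -- apply the affine theorem
  have hAg := hAFF (affFld d F) hgood (aff3 p) hW0 (by
    intro R hR
    by_contra hcon
    push Not at hcon
    apply halg
    obtain ⟨k, P, hk, hP, hP0, hPe⟩ := homog R hR
    refine ⟨k, P, hk, hP, hP0, fun q hq => ?_⟩
    rw [hPe q (hLne q hq), hcon _ (hLA q hq), mul_zero])
  obtain ⟨u, ⟨K, hK⟩, ⟨q₁, q₂, hq₁, hq₂, hne⟩, hsub⟩ := hAg
  refine ⟨fun q => u (aff3 q), ⟨K, fun q hq => hK _ (hLA q hq)⟩, ?_, ?_, emb q₁, emb q₂,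
    (hlift q₁ hq₁).2, (hlift q₂ hq₂).2, ?_⟩
  · intro q hq c hc
    show u (aff3 (c • q)) = u (aff3 q)
    rw [aff3_smul c hc]
  · intro φ hφ hLφ
    have hne' : ∀ t ∈ ball (0 : ℂ) 1, φ t 0 ≠ 0 := fun t ht => hLne _ (hLφ t ht)
    exact hsub (fun t => aff3 (φ t)) (hproj φ hφ hne').1 (fun t ht => hLA _ (hLφ t ht))
  · show u (aff3 (emb q₁)) ≠ u (aff3 (emb q₂))
    rw [aff3_emb, aff3_emb]
    exact hne

end Pool.GL.H78
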