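import Pool.Agent.Helper78.GL.Defs

set_option autoImplicit false

/-!
Statements of all parts of the potential-theoretic half (PT) of MP_a31c1c_an (S05669).
-/

open MeasureTheory Metric Set Filter Topology

namespace Helper78.GL

open Pool.GL

/-! ### Geometry of `TS` -/

/-- TSA: reversed Lipschitz bound and return. -/
def S_TSA : Prop := ∀ (M : Type) (T : TS M) (p : M) (z : ℂ), ‖z‖ < T.rho p / 2 →
  T.rho (T.Phi p z) ≤ T.rho p + ‖z‖ ∧ T.Phi (T.Phi p z) (-z) = p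

/-- TSB: two discs of radius a quarter of `ρ` overlap in a translation. -/
def S_TSB : Prop := ∀ (M : Type) (T : TS M) (p q : M) (z₁ w₁ : ℂ),
  ‖z₁‖ < T.rho p / 4 → ‖w₁‖ < T.rho q / 4 → T.Phi p z₁ = T.Phi q w₁ →
  ∀ z w : ℂ, ‖z‖ < T.rho p / 4 → ‖w‖ < T.rho q / 4 → (T.Phi p z = T.Phi q w ↔ w - z = w₁ - z₁)

/-- TSC: connectivity by small steps. -/
def S_TSC : Prop := ∀ (M : Type) (T : TS M) (ε : ℝ), 0 < ε → ∀ p q : M,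
  Relation.ReflTransGen (fun x y => ∃ z, ‖z‖ < ε * T.rho x ∧ y = T.Phi x z) p q

/-- COUNT: countable cover. -/
def S_COUNT : Prop := ∀ (M : Type) (T : TS M), Nonempty M →
  ∃ c : ℕ → M, ∀ x, ∃ n, ∃ z : ℂ, ‖z‖ < T.rho (c n) / 4 ∧ x = T.Phi (c n) z

/-- AREA: existence of the area measure. -/
def S_AREA : Prop := ∀ (M : Type) (T : TS M), Nonempty M →
  ∃ (ms : MeasurableSpace M) (μ : @Measure M ms), @Pool.GL.TS.IsArea M T ms μ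

/-- INT: integration of functions continuous along the surface. -/
def S_INT : Prop := ∀ (M : Type) (T : TS M) [MeasurableSpace M] (μ : Measure M), T.IsArea μ →
  (∀ p r, 0 < r → r ≤ T.rho p / 4 → MeasurableSet (T.disc p r)) ∧
  (∀ F : M → ℝ, T.Cont F → Measurable F) ∧
  (∀ F : M → ℝ, T.Cont F → T.CSupp F → Integrable F μ) ∧
  (∀ F : M → ℝ, T.Cont F → ∀ p r, 0 < r → r ≤ T.rho p / 4 →
    ∫ x in T.disc p r, F x ∂μ = ∫ z in ball (0 : ℂ) r, F (T.Phi p z))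

/-- TST: algebra of test functions and of the Dirichlet form. -/
def S_TST : Prop := ∀ (M : Type) (T : TS M) [MeasurableSpace M] (μ : Measure M), T.IsArea μ →
  (T.Test 0) ∧
  (∀ v w, T.Test v → T.Test w → ∀ a b : ℝ, T.Test (fun x => a * v x + b * w x)) ∧
  (∀ v w, T.D μ v w = T.D μ w v) ∧
  (∀ v, T.Test v → 0 ≤ T.D μ v v) ∧
  (∀ v w u, T.Test v → T.Test w → T.Test u → ∀ a b : ℝ,
    T.D μ (fun x => a * v x + b * w x) u = a * T.D μ v u + b * T.D μ w u) ∧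
  (∀ v, T.Test v → ∀ p r, 0 < r → r ≤ T.rho p / 4 →
    en (fun z => v (T.Phi p z)) r ≤ T.D μ v v)

/-- COMP: composition of a test function with a `C¹` function `τ`, `τ 0 = 0`, `-1 ≤ τ' ≤ 0`. -/
def S_COMP : Prop := ∀ (M : Type) (T : TS M) [MeasurableSpace M] (μ : Measure M), T.IsArea μ →
  ∀ τ : ℝ → ℝ, ContDiff ℝ 1 τ → τ 0 = 0 → (∀ s, -1 ≤ deriv τ s ∧ deriv τ s ≤ 0) →
  ∀ v, T.Test v → T.Test (fun x => τ (v x)) ∧
    T.D μ (fun x => τ (v x)) (fun x => τ (v x)) ≤ - T.D μ v (fun x => τ (v x))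

/-- BUMP: transplants of compactly supported functions. -/
def S_BUMP : Prop := ∀ (M : Type) (T : TS M) [MeasurableSpace M] (μ : Measure M), T.IsArea μ →
  ∀ (p : M) (ψ : ℂ → ℝ) (r : ℝ), ContDiff ℝ (⊤ : ℕ∞) ψ → 0 < r → r < T.rho p / 4 →
    (∀ w : ℂ, r ≤ ‖w‖ → ψ w = 0) →
    T.Test (T.bump p ψ) ∧
    (∀ z : ℂ, ‖z‖ < T.rho p / 4 → T.bump p ψ (T.Phi p z) = ψ z) ∧
    (∀ v, T.Test v → T.D μ v (T.bump p ψ) =
      ∫ z : ℂ, (dX (fun z => v (T.Phi p z)) z * dX ψ z + dY (fun z => v (T.Phi p z)) z * dY ψ z)) ∧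
    (∀ K : M → ℝ, T.Cont K →
      ∫ x, K x * T.bump p ψ x ∂μ = ∫ z : ℂ, K (T.Phi p z) * ψ z)

/-! ### Analysis on `ℂ` -/

/-- PROF: there is a profile. -/
def S_PROF : Prop := Nonempty Profile

/-- TRANS: comparison of averages by the Dirichlet energy (scale invariant). -/
def S_TRANS : Prop := ∀ (P : Profile) (A : ℝ), 1 ≤ A → ∃ C : ℝ, 0 ≤ C ∧
  ∀ (f : ℂ → ℝ) (R R₁ r r' : ℝ) (a a' : ℂ), 0 < r → 0 < r' → r' ≤ A * r → r ≤ A * r' →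
    ‖a' - a‖ ≤ A * r → ‖a‖ + r ≤ R₁ → ‖a'‖ + r' ≤ R₁ → R₁ < R →
    ContDiffOn ℝ 1 f (ball 0 R) →
    |avg P.χ f a r - avg P.χ f a' r'| ≤ C * √(en f R₁)

/-- GRN: Green's identity with a compactly supported function. -/
def S_GRN : Prop := ∀ (R r : ℝ) (v ψ : ℂ → ℝ), 0 < r → r < R →
  ContDiffOn ℝ 1 v (ball 0 R) → ContDiff ℝ 2 ψ → (∀ w : ℂ, r ≤ ‖w‖ → ψ w = 0) →
  ∫ z : ℂ, lap ψ z * v z = - ∫ z : ℂ, (dX v z * dX ψ z + dY v z * dY ψ z)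

/-- MV: a continuous function with the mollifier mean value property is smooth and harmonic. -/
def S_MV : Prop := ∀ (P : Profile) (R : ℝ) (f : ℂ → ℝ), 0 < R → ContinuousOn f (ball 0 R) →
  (∀ (z : ℂ) (r : ℝ), 0 < r → ‖z‖ + r < R → avg P.χ f z r = f z) →
  ContDiffOn ℝ 2 f (ball 0 R) ∧ ∀ z ∈ ball (0 : ℂ) R, lap f z = 0

/-- LL: local limit lemma. -/
def S_LL : Prop := ∀ (P : Profile) (R : ℝ) (v : ℕ → ℂ → ℝ) (h : ℂ → ℝ), 0 < R →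
  (∀ n, ContDiffOn ℝ 1 (v n) (ball 0 R)) → ContDiff ℝ (⊤ : ℕ∞) h →
  (∀ R', 0 < R' → R' < R → ∀ ε, 0 < ε → ∃ N, ∀ n m, N ≤ n → N ≤ m →
    en (fun z => v n z - v m z) R' ≤ ε) →
  (∃ r₁ l, 0 < r₁ ∧ r₁ < R ∧ Tendsto (fun n => avg P.χ (v n) 0 r₁) atTop (𝓝 l)) →
  (∀ ψ : ℂ → ℝ, ContDiff ℝ (⊤ : ℕ∞) ψ → (∃ r, 0 < r ∧ r < R ∧ ∀ w : ℂ, r ≤ ‖w‖ → ψ w = 0) →
    Tendsto (fun n => ∫ z : ℂ, (dX (v n) z * dX ψ z + dY (v n) z * dY ψ z)) atTop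
      (𝓝 (- ∫ z : ℂ, lap h z * ψ z))) →
  ∃ g : ℂ → ℝ, ContDiffOn ℝ 2 g (ball 0 R) ∧ (∀ z ∈ ball (0 : ℂ) R, lap g z = lap h z) ∧
    ∀ (z : ℂ) (s : ℝ), 0 < s → ‖z‖ + s < R →
      Tendsto (fun n => avg P.χ (v n) z s) atTop (𝓝 (avg P.χ g z s))

/-- SUBM: sub-mean value property of `C²` functions with nonnegative Laplacian. -/
def S_SUBM : Prop := ∀ w : ℂ → ℝ, ContDiffOn ℝ 2 w (ball 0 1) →
  (∀ z ∈ ball (0 : ℂ) 1, 0 ≤ lap w z) →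
  ∀ (z : ℂ) (r : ℝ), 0 < r → closedBall z r ⊆ ball 0 1 →
    2 * Real.pi * w z ≤ ∫ θ in (0 : ℝ)..(2 * Real.pi), w (circleMap z r θ)

/-- CMP: Laplacian of a composition with a holomorphic map. -/
def S_CMP : Prop := ∀ (g : ℂ → ℝ) (τ : ℂ → ℂ) (s : Set ℂ) (z : ℂ), IsOpen s → z ∈ s →
  DifferentiableOn ℂ τ s → (∃ U, IsOpen U ∧ τ z ∈ U ∧ ContDiffOn ℝ 2 g U) →
  ContDiffAt ℝ 2 (fun t => g (τ t)) z ∧
  lap (fun t => g (τ t)) z = ‖deriv τ z‖ ^ 2 * lap g (τ z)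

/-! ### Minimisation -/

/-- MIN: abstract minimisation. -/
def S_MIN : Prop := ∀ (V : Type) [AddCommGroup V] [Module ℝ V] (D : V → V → ℝ) (l : V → ℝ) (C : ℝ),
  (∀ v w, D v w = D w v) → (∀ v w u (a b : ℝ), D (a • v + b • w) u = a * D v u + b * D w u) →
  (∀ v, 0 ≤ D v v) → (∀ v w (a b : ℝ), l (a • v + b • w) = a * l v + b * l w) →
  (∀ v, |l v| ≤ C * √(D v v)) →
  ∃ v : ℕ → V,
    (∀ ε, 0 < ε → ∃ N, ∀ n m, N ≤ n → N ≤ m → D (v n - v m) (v n - v m) ≤ ε) ∧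
    (∀ ε, 0 < ε → ∃ N, ∀ n, N ≤ n → ∀ w, |D (v n) w - l w| ≤ ε * √(D w w))

/-- the base functional -/
noncomputable def base (P : Profile) {M : Type} (T : TS M) (p₀ : M) (r₀ : ℝ) (v : M → ℝ) : ℝ :=
  avg P.χ (fun z => v (T.Phi p₀ z)) 0 r₀

/-- the base bound -/
def BaseBound (P : Profile) {M : Type} (T : TS M) [MeasurableSpace M] (μ : Measure M)
    (p₀ : M) (r₀ : ℝ) : Prop :=
  0 < r₀ ∧ r₀ < T.rho p₀ / 4 ∧ ∃ C : ℝ, ∀ v, T.Test v → |base P T p₀ r₀ v| ≤ C * √(T.D μ v v)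

/-- minimising sequence -/
def MinSeq (P : Profile) {M : Type} (T : TS M) [MeasurableSpace M] (μ : Measure M)
    (p₀ : M) (r₀ : ℝ) (v : ℕ → M → ℝ) : Prop :=
  (∀ n, T.Test (v n)) ∧
  (∀ ε, 0 < ε → ∃ N, ∀ n m, N ≤ n → N ≤ m →
    T.D μ (fun x => v n x - v m x) (fun x => v n x - v m x) ≤ ε) ∧
  (∀ ε, 0 < ε → ∃ N, ∀ n, N ≤ n → ∀ w, T.Test w →
    |T.D μ (v n) w - base P T p₀ r₀ w| ≤ ε * √(T.D μ w w))

/-- SEQ: existence of a minimising sequence (from MIN, TST, INT). -/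
def S_SEQ : Prop := ∀ (P : Profile) (M : Type) (T : TS M) [MeasurableSpace M] (μ : Measure M)
  (p₀ : M) (r₀ : ℝ), T.IsArea μ → BaseBound P T μ p₀ r₀ → ∃ v, MinSeq P T μ p₀ r₀ v

/-- CHAIN: the base bound propagates to all centres and scales. -/
def S_CHAIN : Prop := ∀ (P : Profile) (M : Type) (T : TS M) [MeasurableSpace M] (μ : Measure M)
  (p₀ : M) (r₀ : ℝ), T.IsArea μ → BaseBound P T μ p₀ r₀ →
  ∀ p r, 0 < r → r < T.rho p / 4 → BaseBound P T μ p r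

/-- NEG: the averages of the minimising sequence are asymptotically `≥ -1`. -/
def S_NEG : Prop := ∀ (P : Profile) (M : Type) (T : TS M) [MeasurableSpace M] (μ : Measure M)
  (p₀ : M) (r₀ : ℝ) (v : ℕ → M → ℝ), T.IsArea μ → BaseBound P T μ p₀ r₀ → MinSeq P T μ p₀ r₀ v →
  ∀ p r, 0 < r → r < T.rho p / 4 → ∀ ε, 0 < ε → ∃ N, ∀ n, N ≤ n →
    -1 - ε ≤ avg P.χ (fun z => v n (T.Phi p z)) 0 r

/-- LOCH: local potential of the source in every disc. -/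
def S_LOCH : Prop := ∀ (P : Profile) (M : Type) (T : TS M) [MeasurableSpace M] (μ : Measure M)
  (p₀ : M) (r₀ : ℝ), T.IsArea μ → 0 < r₀ → r₀ < T.rho p₀ / 4 →
  ∀ p : M, ∃ h : ℂ → ℝ, ContDiff ℝ (⊤ : ℕ∞) h ∧
    (∀ z : ℂ, ‖z‖ < T.rho p / 4 →
      lap h z = - T.bump p₀ (fun w => (r₀⁻¹) ^ 2 * P.χ ((r₀⁻¹ : ℝ) * w)) (T.Phi p z)) ∧
    ∀ (ψ : ℂ → ℝ) (r : ℝ), ContDiff ℝ (⊤ : ℕ∞) ψ → 0 < r → r < T.rho p / 4 →
      (∀ w : ℂ, r ≤ ‖w‖ → ψ w = 0) →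
      base P T p₀ r₀ (T.bump p ψ) = - ∫ z : ℂ, lap h z * ψ z

/-- GLUE: the Green function. -/
def S_GLUE : Prop := ∀ (P : Profile) (M : Type) (T : TS M) [MeasurableSpace M] (μ : Measure M)
  (p₀ : M) (r₀ : ℝ), T.IsArea μ → BaseBound P T μ p₀ r₀ →
  ∃ G : M → ℝ, (∀ p, ContDiffOn ℝ 2 (fun z => G (T.Phi p z)) (ball 0 (T.rho p))) ∧
    (∀ p, lap (fun z => G (T.Phi p z)) 0 =
      - T.bump p₀ (fun w => (r₀⁻¹) ^ 2 * P.χ ((r₀⁻¹ : ℝ) * w)) p) ∧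
    ∀ p, -1 ≤ G p

/-- GREEN: a bounded nonconstant subharmonic function. -/
def S_GREEN : Prop := ∀ (P : Profile) (M : Type) (T : TS M) [MeasurableSpace M] (μ : Measure M)
  (p₀ : M) (r₀ : ℝ), T.IsArea μ → BaseBound P T μ p₀ r₀ →
  ∃ u : M → ℝ, (∃ B : ℝ, ∀ x, |u x| ≤ B) ∧
    (∀ p, ContDiffOn ℝ 2 (fun z => u (T.Phi p z)) (ball 0 (T.rho p))) ∧
    (∀ p, 0 ≤ lap (fun z => u (T.Phi p z)) 0) ∧ ∃ x y, u x ≠ u y

/-! ### The tree criterion -/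

/-- TREE: a tree gives the base bound at its root. -/
def S_TREE : Prop := ∀ (P : Profile) (M : Type) (T : TS M) [MeasurableSpace M] (μ : Measure M),
  T.IsArea μ → ∀ t : T.Tree, BaseBound P T μ (t.y [] false 0) (t.r [] false 0 / 8)

end Helper78.GL
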